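import Pool.Agent.MP_154433_an.t5a.SpecB
import Pool.Agent.MP_154433_an.t3a.ConvA

/-! From the algebraic step on bundles to the statement of the main development. -/

set_option autoImplicit false
set_option linter.unusedVariables false

open MeasureTheory ProbabilityTheory Filter Topology Set
open scoped ENNReal

namespace Pool.Agent.MP_154433_an.T4A.T5B

open T3A T5A

noncomputable section

open T3x (Wt Lab)

lemma cov_of {V : Type} [AddCommGroup V] {n n' : V → Prop} (h : ∀ u, n u ↔ n' u) {v : ℤ → V}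
    {sp : Finset ℤ} {w : ℤ → ℝ} {K : ℕ} {ε : ℝ} (hc : Cov n v sp w K ε) :
    T5x.Cov n' v sp w K ε := by
  obtain rfl : n = n' := funext fun u => propext (h u)
  obtain ⟨S, h1, h2⟩ := hc
  exact ⟨S, fun i P hP Q hQ => h1 i P (Finset.mem_powerset.2 hP) Q (Finset.mem_powerset.2 hQ), h2⟩

theorem bridge (hA : AlgO) (hE : ExaS)
    (hm : ∀ (ν : Wt) (U : Ultrafilter ℕ), (U : Filter ℕ) ≤ atTop → T3x.ERG ν → Mix ℤ (wm ν) U)
    (shz : ShzS) (dek : DekS) : T5x.AlgS2 := by
  classical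
  intro ν U X V _ _ sg N Sg n h
  obtain ⟨nz, sz'⟩ := shz ν U X V sg N Sg n h.toAlgD1
  have mp : ∀ k : ℤ, MeasurePreserving (X.Tz k) X.μ X.μ := fun k => T3A.mp_tz X.mp k
  have mT : ∀ k : ℤ, Measurable (X.Tz k) := fun k => (mp k).measurable
  let T : Act ℤ X.X := ⟨X.Tz, mT, fun y => T3A.tz_zero X.T y, fun a b y => T3A.tz_add X.T a b y⟩
  let σ : VAct ℤ V := ⟨fun k => (k • sg).toAddMonoidHom, fun c => by simp,
    fun g g' c => by simp [add_zsmul, AddAut.add_apply]⟩
  obtain ⟨N', mN, eN, aN⟩ := hE ℤ X.X V X.μ T σ N mp h.mN h.n0 h.nsub nz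
  have hn : ∀ M (d : ℤ × ℤ), n (lab true M d) = d.1 • (-1 : ℤ) + d.2 • (1 : ℤ) := by
    intro M d
    rw [h.hn]
    simp only [lab, if_true, smul_eq_mul]
    ring
  let B : Bun ℤ X.X V Unit :=
    { μ := X.μ, prob := X.pr, T := T, mp := mp, σ := σ, N := N'
      mN := mN, eqz := eN, ν := wm ν, pν := fun _ => inferInstance, U := U
      a := fun _ => -1, b := fun _ => 1
      Sg := fun _ M d y => {p | y ∈ Sg (lab true M d) p.1 p.2}
      mS := fun _ M d => measurable_set_iff.2 fun p =>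
        measurableSet_setOfPred.1 (h.mS (lab true M d) p.1 p.2) }
  have aZ : ∀ k : ℤ, ∀ᵐ y ∂X.μ, ∀ c, c ∈ N' (tz T k y) ↔ X.Tz k y ∈ N c := fun k =>
    (mp k).quasiMeasurePreserving.ae aN
  have mi : ∀ {A A' : Set X.X}, MeasurableSet A → MeasurableSet A' →
      MeasurableSet {y | ¬ (y ∈ A ↔ y ∈ A')} := fun hA hA' =>
    measurableSet_setOfPred.2 ((measurableSet_setOfPred.1 hA).iff (measurableSet_setOfPred.1 hA')).not
  have tot : ∀ (j : Unit) (c : V) (ε : ℝ≥0∞), 0 < ε → ∃ F : Finset V,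
      ∀ᶠ M in (U : Filter ℕ),
      B.P M (B.pt j M ⁻¹' {a | ((0 : V), (0 : V)) ∈ a.2 ∧ ∀ c' ∈ F, (c, c') ∉ a.2}) ≤ ε ∧
      B.P M (B.pt j M ⁻¹' {a | ((0 : V), (0 : V)) ∈ a.2 ∧ ∀ c' ∈ F, (c', c) ∉ a.2}) ≤ ε := by
    intro j c ε hε
    obtain ⟨ε', h1, h2⟩ : ∃ ε' : ℝ, 0 < ε' ∧ ENNReal.ofReal ε' ≤ ε := by
      obtain ⟨x, -, hx1, hx2⟩ := ENNReal.lt_iff_exists_real_btwn.1 hε
      exact ⟨x, ENNReal.ofReal_pos.1 hx1, hx2.le⟩
    obtain ⟨F, hF⟩ := h.tot c ε' h1
    refine ⟨F, hF.mono fun M hM => ⟨?_, ?_⟩⟩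
    · refine (key_le ν true M X (A := fun l => Sg l 0 0 \ ⋃ a' ∈ F, Sg l c a')
        (fun l => (h.mS l 0 0).diff (F.measurableSet_biUnion fun a' _ => h.mS l c a'))
        (fun d => Eventually.of_forall fun y hy => ⟨hy.1, ?_⟩)).trans
        ((ENNReal.ofReal_le_ofReal hM.1).trans h2)
      intro hu
      obtain ⟨a', ha', hu⟩ := mem_iUnion₂.1 hu
      exact hy.2 a' ha' hu
    · refine (key_le ν true M X (A := fun l => Sg l 0 0 \ ⋃ a' ∈ F, Sg l a' c)
        (fun l => (h.mS l 0 0).diff (F.measurableSet_biUnion fun a' _ => h.mS l a' c))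
        (fun d => Eventually.of_forall fun y hy => ⟨hy.1, ?_⟩)).trans
        ((ENNReal.ofReal_le_ofReal hM.2).trans h2)
      intro hu
      obtain ⟨a', ha', hu⟩ := mem_iUnion₂.1 hu
      exact hy.2 a' ha' hu
  have h0 : H0 B := by
    refine ⟨hm ν U h.hU h.erg, fun j c c' => ?_, fun j c c' a a' => ?_,
      fun j c c' => ?_, fun j c ε hε => ?_, fun j c ε hε => ?_, fun j g c c' => ?_⟩
    · refine nul_of ν U true X (fun l => (((h.mS l 0 0).inter (h.mN c)).inter
        (mT _ (h.mN c'))).diff (h.mS l c c')) (h.triv c c') fun M d => ?_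
      filter_upwards [aN, aZ (B.st j d)] with y h1 h2 hy
      refine ⟨⟨⟨hy.2.2.1, (h1 c).1 hy.1⟩, ?_⟩, hy.2.2.2⟩
      rw [hn]
      exact (h2 c').1 hy.2.1
    · exact nul_of ν U true X
        (fun l => ((h.mS l _ _).inter (h.mS l _ _)).diff (h.mS l _ _))
        (h.sub c c' a a') fun M d =>
          Eventually.of_forall fun y hy => ⟨⟨hy.1, hy.2.1⟩, hy.2.2⟩
    · refine nul_of ν U true X
        (fun l => (h.mS l c c').inter (mi (h.mN c) (mT _ (h.mN c'))))
        (h.ker c c') fun M d => ?_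
      filter_upwards [aN, aZ (B.st j d)] with y h1 h2 hy
      refine ⟨hy.1, fun hc => hy.2 ?_⟩
      rw [hn] at hc
      exact (h1 c).trans (hc.trans (h2 c').symm)
    · obtain ⟨F, hF⟩ := tot j c ε hε
      exact ⟨F, hF.mono fun M hM => hM.1⟩
    · obtain ⟨F, hF⟩ := tot j c ε hε
      exact ⟨F, hF.mono fun M hM => hM.2⟩
    · exact nul_of ν U true X (fun l => mi (h.mS l _ _) (mT g (h.mS l c c')))
        (sz' g c c') fun M d => Eventually.of_forall fun y hy => hy
  have hF : Flat B := by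
    intro j j' a b a' b'
    obtain ⟨φ, h1, h2⟩ := h.flat a b a' b'
    have hφ : ∀ l, 0 ≤ φ l := fun l => ge_of_tendsto' (h2 l) fun M =>
      av2_nonneg ν M fun _ => measureReal_nonneg
    have h3 : ∀ M' d', limsup (fun M => B.P M (B.pt j' M ⁻¹' B.flatS j M' d' a b a' b')) U =
        ENNReal.ofReal (φ (lab true M' d')) := by
      intro M' d'
      refine ((ENNReal.tendsto_ofReal (h2 (lab true M' d'))).congr fun M => ?_).limsup_eq
      refine (key ν true M X (A := fun l' => {y | y ∈ Sg l' a b ∧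
          y ∈ Sg l' ((n (lab true M' d') • sg) a') ((n (lab true M' d') • sg) b') ∧
          ¬ (y ∈ Sg (lab true M' d') a a' ↔ X.Tz (n l') y ∈ Sg (lab true M' d') b b')})
        fun l' => (h.mS l' a b).inter ((h.mS l' _ _).inter
        (mi (h.mS _ a a') (mT _ (h.mS _ b b'))))).symm.trans ?_
      change PM (wm ν M) X.μ _ = PM (wm ν M) X.μ _
      congr 1
      ext z
      simp only [mem_ofPred_eq, hn]
      rfl
    have h4 := ENNReal.tendsto_ofReal h1
    rw [ENNReal.ofReal_zero] at h4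
    refine h4.congr fun M' => ?_
    rw [← key0 ν true M' hφ]
    exact lintegral_congr fun d' => (h3 M' d').symm
  have hD : Dec2 B.toBase := by
    obtain ⟨k, hk⟩ := dek ν U X V sg N h.dec
    refine ⟨k, fun c c' => (hk c c').congr fun i => measure_congr ?_⟩
    filter_upwards [aN] with y h1
    exact propext (and_congr (h1 _).symm (not_congr (h1 _).symm))
  have hg : AddSubgroup.closure (range B.a ∪ range B.b) = ⊤ := by
    refine top_le_iff.1 fun k _ => ?_
    have h1 : (1 : ℤ) ∈ AddSubgroup.closure (range B.a ∪ range B.b) :=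
      AddSubgroup.subset_closure (Or.inr ⟨(), rfl⟩)
    simpa using AddSubgroup.zsmul_mem _ h1 k
  refine hA X.X V Unit B hg h0 hF (fun I hI hinv hL => ?_) hD
  have hI1 : X.T ⁻¹' I = I := by
    have := hinv 1
    have e : tz B.T 1 = X.T := funext fun y => T3A.tz_one X.T y
    rwa [e] at this
  have hN : T3x.Nl ν U X fun l => Sg l 0 0 \ I := by
    have h1 : Tendsto (fun M => ENNReal.ofReal (ν.av2 M fun l => X.μ.real (Sg l 0 0 \ I))) U
        (𝓝 0) := by
      refine tendsto_of_tendsto_of_tendsto_of_le_of_le tendsto_const_nhds hL (fun _ => zero_le)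
        fun M => ?_
      exact key_ge ν true M X (fun l => (h.mS l 0 0).diff hI)
        fun d => Eventually.of_forall fun y hy => ⟨fun _ => hy.1, hy.2⟩
    have h2 := (ENNReal.tendsto_toReal ENNReal.zero_ne_top).comp h1
    refine h2.congr fun M => ?_
    exact ENNReal.toReal_ofReal (av2_nonneg ν M fun _ => measureReal_nonneg)
  obtain ⟨c, ε, hε, hc⟩ := h.rel2 I hI hI1 hN
  refine ⟨c, ε, ENNReal.ofReal ε, hε, ENNReal.ofReal_pos.2 hε, fun K => ?_⟩
  obtain ⟨M, hM⟩ := (hc K).exists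
  refine ⟨ν.sp M, ν.w M, ⟨ν.nn M, ν.one M⟩, (ENNReal.ofReal_le_ofReal hM).trans ?_⟩
  rw [ofReal_measureReal]
  refine measure_mono_ae ?_
  filter_upwards [aN] with y h1 hy
  exact ⟨fun hcv => hy.2 (cov_of h1 hcv), hy.1⟩

end

end Pool.Agent.MP_154433_an.T4A.T5B
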