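import Pool.Agent.MP_154433_an.t5a.SpecA

/-! Row Core: a tight decaying cocycle with values in a commutative group is covered. -/

set_option autoImplicit false
set_option linter.unusedVariables false

open MeasureTheory Filter Topology Set
open scoped ENNReal

namespace Pool.Agent.MP_154433_an.T5A

theorem xCore : CoreS := by
  intro hMod hDrift hMark Om Ga G _ ka _ _ _ _ _ T hT P hP htight x hx k hk ε δ hε hδ
  have hc : min 1 (ENNReal.ofReal ε * δ) ≠ 0 := by
    refine (lt_min zero_lt_one ?_).ne'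
    exact ENNReal.mul_pos (ENNReal.ofReal_pos.2 hε).ne' hδ.ne'
  obtain ⟨n, hn0, hn⟩ := ENNReal.exists_nnreal_pos_mul_lt (a := 3) (by simp) hc
  have h3 : (n : ℝ≥0∞) + n + n = n * 3 := by ring
  have hη1 : (n : ℝ≥0∞) + n + n < 1 := h3 ▸ hn.trans_le (min_le_left _ _)
  have hη2 : (n : ℝ≥0∞) + n < ENNReal.ofReal ε * δ :=
    lt_of_le_of_lt le_self_add (h3 ▸ hn.trans_le (min_le_right _ _))
  obtain ⟨S, K, ct, Z, F0, hS, hct, hQ, hZ, hZK, hF0, hA, hB⟩ :=
    hDrift Om Ga G ka T hT P hP htight x hx n (by exact_mod_cast hn0) hη1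
  have hcol : ∀ z ∈ Z, z ≠ 0 → Col fun d => ct d • z := by
    intro z hz hz0
    rcases hMod Ga G S K ct z hS hct hQ hz0 (hZK z hz) with ⟨z', hz', hK', hfin⟩ | h
    · exfalso
      have hY : (image2 (fun (f : G) (r : Ga) => f • r) F0 (range fun d => ct d • z')).Finite :=
        hF0.image2 _ hfin
      have hne : ∀ b ∈ hY.toFinset, b ≠ 0 := by
        intro b hb
        obtain ⟨f, -, _, ⟨d, rfl⟩, rfl⟩ := hY.mem_toFinset.1 hb
        intro h0
        exact hz' ((smul_eq_zero_iff_eq _).1 ((smul_eq_zero_iff_eq _).1 h0))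
      have hle : ∀ i, (1 : ℝ≥0∞) ≤
          n + ∑ b ∈ hY.toFinset, ka {y | P (k i) y • z' = b} := by
        intro i
        have hsub : (univ : Set Om) ⊆
            {y | ¬ ∃ f ∈ F0, ∀ z : Ga, (∀ g ∈ K, g • z = z) → P (k i) y • z = f • ct (k i) • z} ∪
              ⋃ b ∈ hY.toFinset, {y | P (k i) y • z' = b} := by
          intro y _
          by_cases hy : ∃ f ∈ F0, ∀ z : Ga, (∀ g ∈ K, g • z = z) →
              P (k i) y • z = f • ct (k i) • z
          · obtain ⟨f, hf, hf'⟩ := hy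
            refine Or.inr (mem_iUnion₂.2 ⟨f • ct (k i) • z', ?_, hf' z' hK'⟩)
            exact hY.mem_toFinset.2 ⟨f, hf, _, ⟨k i, rfl⟩, rfl⟩
          · exact Or.inl hy
        calc (1 : ℝ≥0∞) = ka univ := measure_univ.symm
          _ ≤ _ := measure_mono hsub
          _ ≤ _ := measure_union_le _ _
          _ ≤ _ := add_le_add (hB (k i)) (measure_biUnion_finset_le _ _)
      have ht : Tendsto (fun i => (n : ℝ≥0∞) + ∑ b ∈ hY.toFinset, ka {y | P (k i) y • z' = b})
          atTop (𝓝 (n + ∑ b ∈ hY.toFinset, 0)) :=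
        tendsto_const_nhds.add (tendsto_finsetSum _ fun b hb => hk z' b (hne b hb))
      have h1 := ge_of_tendsto' ht hle
      rw [Finset.sum_const_zero, add_zero] at h1
      exact absurd (lt_of_le_of_lt (h1.trans (le_self_add.trans le_self_add)) hη1) (lt_irrefl _)
    · exact h
  obtain ⟨K0, hK0⟩ := hMark Om Ga ka (fun d y => P d y • x (T d y)) Z (fun d z => ct d • z)
    (n + n) hZ (fun d => smul_zero _) hcol hA
  refine ⟨K0, fun sp w hw => ?_⟩
  have h1 := (hK0 ε sp w hw).trans_lt hη2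
  by_contra h2
  exact absurd h1 (not_lt.2 (by gcongr; exact not_lt.1 h2))

end Pool.Agent.MP_154433_an.T5A
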