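import Pool.Agent.MP_154433_an.t5a.SpecA
import Pool.Agent.MP_154433_an.t3a.FinA
import Pool.Agent.MP_154433_an.t3a.FinB

/-! A tight cocycle with values in a commutative group follows a fixed sequence. -/

set_option autoImplicit false

open MeasureTheory Filter Topology
open scoped ENNReal

namespace Pool.Agent.MP_154433_an.T5A

namespace Drift

/-- the elements that fix `E` -/
def stab (G : Type*) {Ga : Type*} [Group G] [MulAction G Ga] (E : Set Ga) : Subgroup G where
  carrier := {g | ∀ a ∈ E, g • a = a}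
  one_mem' := fun a _ => one_smul G a
  mul_mem' := fun {g h} hg hh a ha => by rw [mul_smul, hh a ha, hg a ha]
  inv_mem' := fun {g} hg a ha => by rw [inv_smul_eq_iff, hg a ha]

end Drift

open Drift T3A.FinAux in
theorem xDrift : DriftS := by
  classical
  intro Om Ga G _ ka _ _ _ _ _ T hT P hco ht x hx η hη h3
  obtain ⟨E, hEf, hxE⟩ := nm_tight hx hη
  obtain ⟨A, hA, hA1⟩ := tight_set (ka := ka.prod ka) (fun (g : G) (a : Ga) => g • a)
    (fun n p => (P n p.2)⁻¹ * P n p.1) ht E hEf η hη
  set K := stab G E with hKd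
  let pi : G →* G ⧸ K := QuotientGroup.mk' K
  have hout : ∀ q : G ⧸ K, pi q.out = q := fun q => QuotientGroup.out_eq' q
  let Fx : Ga → Prop := fun a => ∀ g ∈ K, g • a = a
  have hFE : ∀ a ∈ E, Fx a := fun a ha g hg => hg a ha
  have hFs : ∀ (g : G) a, Fx a → Fx (g • a) := fun g a ha k hk => by
    rw [smul_smul, mul_comm, mul_smul, ha k hk]
  have hpi : ∀ (g g' : G) a, Fx a → pi g = pi g' → g • a = g' • a := by
    intro g g' a ha h
    have h1 : g⁻¹ * g' ∈ K := QuotientGroup.eq.mp h
    have h2 := ha _ h1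
    rw [mul_smul, inv_smul_eq_iff] at h2
    exact h2.symm
  let F : Set (G ⧸ K) := {q | ∀ a ∈ E, q.out • a ∈ A}
  have hF : F.Finite := by
    have := hEf.to_subtype
    refine Set.Finite.of_finite_image (f := fun (q : G ⧸ K) (a : E) => q.out • (a : Ga)) ?_ ?_
    · refine (Set.Finite.pi' (fun _ : E => hA)).subset ?_
      rintro _ ⟨q, hq, rfl⟩ a
      exact hq a a.2
    · intro q _ q' _ h
      rw [← hout q, ← hout q']
      refine QuotientGroup.eq.mpr fun a ha => ?_
      have h1 : q.out • a = q'.out • a := congrFun h ⟨a, ha⟩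
      rw [mul_smul, inv_smul_eq_iff, h1]
  obtain ⟨c, F', hF', hc, hq⟩ := drift (ka := ka) T hT (fun n y => pi (P n y))
    (fun n m => (hco n m).mono fun y hy => by rw [hy, map_mul]) F hF h3 (fun n => by
      refine le_trans (measure_mono ?_) (hA1 n)
      intro p hp hp'
      refine hp fun a ha => ?_
      rw [hpi _ ((P n p.2)⁻¹ * P n p.1) a (hFE a ha) (by rw [hout, map_mul, map_inv])]
      exact hp' a ha)
  let S : Set G := Quotient.out '' (F' ∪ {c 0, c 1})
  have hS : S.Finite := (hF'.union (Set.toFinite _)).image _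
  have hlift : ∀ n, ∃ g ∈ Subgroup.closure S, pi g = c n := by
    intro n
    have h1 := quasi_gen c F' hq n
    have h2 : pi '' S = F' ∪ {c 0, c 1} := by
      simp only [S, Set.image_image, hout, Set.image_id']
    rw [← h2, ← MonoidHom.map_closure] at h1
    exact Subgroup.mem_map.mp h1
  choose ct hct hpc using hlift
  have key : ∀ d y (z : Ga), Fx z →
      P d y • z = ((c d)⁻¹ * pi (P d y)).out • ct d • z := by
    intro d y z hz
    rw [smul_smul]
    refine hpi _ _ z hz ?_
    rw [map_mul, hout, hpc, mul_comm, mul_inv_cancel_left]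
  refine ⟨S, K, ct, Set.image2 (fun (q : G ⧸ K) a => q.out • a) F E, Quotient.out '' F, hS, hct,
    ⟨F', hF', fun n m => ?_⟩, Set.Finite.image2 _ hF hEf, ?_, hF.image _, fun d => ?_, fun d => ?_⟩
  · have h := hq n m
    rw [← hpc, ← hpc, ← hpc] at h
    exact h
  · rintro _ ⟨q, _, a, ha, rfl⟩
    exact hFs _ _ (hFE a ha)
  · have h1 : ka {y | x (T d y) ∉ E} ≤ η :=
      le_trans ((hT d).measure_preimage_le {y | x y ∉ E}) hxE
    refine le_trans (measure_mono ?_) ((measure_union_le _ _).trans (add_le_add h1 (hc d)))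
    intro y hy
    by_contra hb
    simp only [Set.mem_union, Set.mem_ofPred_eq, not_or, not_not] at hb
    refine hy ⟨_, Set.mem_image2_of_mem hb.2 hb.1, ?_⟩
    rw [key d y _ (hFE _ hb.1), smul_comm]
  · refine le_trans (measure_mono ?_) (hc d)
    intro y hy hb
    exact hy ⟨_, Set.mem_image_of_mem _ hb, fun z hz => key d y z hz⟩

end Pool.Agent.MP_154433_an.T5A
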