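import Pool.Agent.MP_154433_an.t5a.SpecA

set_option autoImplicit false
set_option linter.unusedVariables false

namespace Pool.Agent.MP_154433_an.T5A

namespace Dual

/-- the forms that kill a pure subgroup cut it out -/
theorem mem_of_forms {A : Type} [AddCommGroup A] [Module.Finite ℤ A] (N : AddSubgroup A)
    (hN : ∀ (n : ℕ) (a : A), n ≠ 0 → n • a ∈ N → a ∈ N) (a : A)
    (h : ∀ f : A →ₗ[ℤ] ℤ, (∀ b ∈ N, f b = 0) → f a = 0) : a ∈ N := by
  let W : Submodule ℤ A := AddSubgroup.toIntSubmodule N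
  have hW : ∀ b, b ∈ W ↔ b ∈ N := fun b => Iff.rfl
  have htf : Module.IsTorsionFree ℤ (A ⧸ W) := by
    refine Module.IsTorsionFree.of_smul_eq_zero fun r m hm => ?_
    obtain ⟨b, rfl⟩ := Submodule.Quotient.mk_surjective W m
    by_cases hr : r = 0
    · exact Or.inl hr
    · right
      rw [← Submodule.Quotient.mk_smul, Submodule.Quotient.mk_eq_zero, hW] at hm
      rw [Submodule.Quotient.mk_eq_zero, hW]
      refine hN r.natAbs b (Int.natAbs_ne_zero.2 hr) ?_
      rcases Int.natAbs_eq r with h1 | h1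
      · rw [h1, natCast_zsmul] at hm
        exact hm
      · rw [h1, neg_smul, natCast_zsmul] at hm
        exact N.neg_mem_iff.1 hm
  have hfree : Module.Free ℤ (A ⧸ W) := Module.free_of_finite_type_torsion_free'
  rw [← hW, ← Submodule.Quotient.mk_eq_zero W, ← Module.forall_dual_apply_eq_zero_iff ℤ]
  intro φ
  refine h (φ.comp W.mkQ) fun b hb => ?_
  rw [LinearMap.comp_apply, Submodule.mkQ_apply, (Submodule.Quotient.mk_eq_zero W).2 ((hW b).2 hb),
    map_zero]

end Dual

theorem xDual : DualS := by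
  intro A ι _ _ N c hp hb
  classical
  let S : Set (A →ₗ[ℤ] ℤ) := {f | ∃ i, ∀ a ∈ N i, f a = 0}
  have hfg : (Submodule.span ℤ S).FG := IsNoetherian.noetherian _
  obtain ⟨Lam, hsub, hspan⟩ := (Submodule.fg_span_iff_fg_span_finset_subset S).1 hfg
  let g : ℤ → (Lam → ℤ) := fun d f => f.1 (c d)
  have hfin : (Set.range g).Finite := by
    have h1 : ∀ f : Lam, ∃ C : ℤ, ∀ d, |f.1 (c d)| ≤ C := by
      intro f
      obtain ⟨i, hi⟩ := hsub f.2
      exact hb i f.1.toAddMonoidHom hi
    choose C hC using h1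
    refine (Set.Finite.pi' (fun f : Lam => Set.finite_Icc (-C f) (C f))).subset ?_
    rintro _ ⟨d, rfl⟩ f
    exact abs_le.1 (hC f d)
  refine ⟨Function.invFun g '' Set.range g, hfin.image _, fun d => ?_⟩
  refine ⟨Function.invFun g (g d), ⟨g d, ⟨d, rfl⟩, rfl⟩, fun i => ?_⟩
  have he : g (Function.invFun g (g d)) = g d := Function.invFun_eq ⟨d, rfl⟩
  refine Dual.mem_of_forms (N i) (hp i) _ fun f hf => ?_
  have hf' : f ∈ Submodule.span ℤ (Lam : Set (A →ₗ[ℤ] ℤ)) := by
    rw [← hspan]
    exact Submodule.subset_span ⟨i, hf⟩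
  clear hf
  induction hf' using Submodule.span_induction with
  | mem x hx =>
    have := congrFun he ⟨x, hx⟩
    rw [map_sub, sub_eq_zero]
    exact this.symm
  | zero => rfl
  | add x y _ _ hx hy => rw [LinearMap.add_apply, hx, hy, add_zero]
  | smul r x _ hx => rw [LinearMap.smul_apply, hx, smul_zero]

end Pool.Agent.MP_154433_an.T5A
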