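import Pool.Agent.MP_154433_an.t5a.SpecA

/-! Row Mark: covering by the classes of finitely many fixed families. -/

set_option autoImplicit false

open MeasureTheory Filter Topology Set
open scoped ENNReal

namespace Pool.Agent.MP_154433_an.T5A

noncomputable section

namespace Mark

/-- a class on which the family agrees with a separated family is dissociated -/
theorem dis_of_sep {A : Type} [AddCommGroup A] {u v : ℤ → A} {T : Set ℤ} (hT : Sep u T)
    {S : Finset ℤ} (hS : ∀ d ∈ S, v d = u d ∧ d ∈ T) : Dis (fun a => a = 0) v S := by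
  intro P hP Q hQ hd hne h0
  have hP' := Finset.mem_powerset.1 hP
  have hQ' := Finset.mem_powerset.1 hQ
  have h1 : ∑ d ∈ P, v d = ∑ d ∈ P, u d := Finset.sum_congr rfl fun d hd => (hS d (hP' hd)).1
  have h2 : ∑ d ∈ Q, v d = ∑ d ∈ Q, u d := Finset.sum_congr rfl fun d hd => (hS d (hQ' hd)).1
  have h3 : ∑ d ∈ P, u d = ∑ d ∈ Q, u d := by
    rw [← h1, ← h2]; exact sub_eq_zero.1 h0
  obtain ⟨rfl, rfl⟩ := hT P Q (fun d hd => (hS d (hP' hd)).2) (fun d hd => (hS d (hQ' hd)).2) hd h3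
  simp at hne

/-- the inequality of Markov for a weighted family of small sets -/
theorem markov {Om : Type} [MeasurableSpace Om] (ka : Measure Om) (B : ℤ → Set Om) (η : ℝ≥0∞)
    (hB : ∀ d, ka (B d) ≤ η) (ε : ℝ) (sp : Finset ℤ) (w : ℤ → ℝ) (hw : Pw sp w) (E : Set Om)
    (hE : ∀ y ∈ E, ∃ R : Finset ℤ, R ⊆ sp ∧ (∀ d ∈ R, y ∈ B d) ∧ ε ≤ ∑ d ∈ R, w d) :
    ENNReal.ofReal ε * ka E ≤ η := by
  classical
  let f : Om → ℝ≥0∞ := fun y =>
    ∑ d ∈ sp, (toMeasurable ka (B d)).indicator (fun _ => ENNReal.ofReal (w d)) y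
  have hm : ∀ d, Measurable fun y =>
      (toMeasurable ka (B d)).indicator (fun _ => ENNReal.ofReal (w d)) y := fun d =>
    measurable_const.indicator (measurableSet_toMeasurable ka (B d))
  have hf : Measurable f := Finset.measurable_sum _ fun d _ => hm d
  have hsub : E ⊆ {y | ENNReal.ofReal ε ≤ f y} := by
    intro y hy
    obtain ⟨R, hR, hy', hε⟩ := hE y hy
    show ENNReal.ofReal ε ≤ f y
    calc ENNReal.ofReal ε ≤ ENNReal.ofReal (∑ d ∈ R, w d) := ENNReal.ofReal_le_ofReal hε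
      _ = ∑ d ∈ R, ENNReal.ofReal (w d) := ENNReal.ofReal_sum_of_nonneg fun d _ => hw.1 d
      _ = ∑ d ∈ R, (toMeasurable ka (B d)).indicator (fun _ => ENNReal.ofReal (w d)) y :=
          Finset.sum_congr rfl fun d hd =>
            (indicator_of_mem (subset_toMeasurable ka (B d) (hy' d hd))
              fun _ => ENNReal.ofReal (w d)).symm
      _ ≤ f y := Finset.sum_le_sum_of_subset hR
  calc ENNReal.ofReal ε * ka E ≤ ENNReal.ofReal ε * ka {y | ENNReal.ofReal ε ≤ f y} := by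
        gcongr
    _ ≤ ∫⁻ y, f y ∂ka := mul_meas_ge_le_lintegral hf _
    _ = ∑ d ∈ sp, ENNReal.ofReal (w d) * ka (B d) := by
        rw [lintegral_finsetSum _ fun d _ => hm d]
        refine Finset.sum_congr rfl fun d _ => ?_
        rw [lintegral_indicator_const (measurableSet_toMeasurable ka (B d)), measure_toMeasurable]
    _ ≤ ∑ d ∈ sp, ENNReal.ofReal (w d) * η := Finset.sum_le_sum fun d _ => by
        gcongr; exact hB d
    _ = η := by
        rw [← Finset.sum_mul, ← ENNReal.ofReal_sum_of_nonneg fun d _ => hw.1 d, hw.2,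
          ENNReal.ofReal_one, one_mul]

end Mark

theorem xMark : MarkS := by
  classical
  intro Om Ga _ ka _ γ Z e η hZ he0 hcol hB
  choose ι hι col hsep using fun z : {z : Ga // z ∈ Z ∧ z ≠ 0} => hcol z.1 z.2.1 z.2.2
  have : Finite {z : Ga // z ∈ Z ∧ z ≠ 0} := (hZ.subset fun z hz => hz.1).to_subtype
  have : ∀ z, Finite (ι z) := hι
  let φ := Finite.equivFin (Σ z : {z : Ga // z ∈ Z ∧ z ≠ 0}, ι z)
  refine ⟨Nat.card (Σ z : {z : Ga // z ∈ Z ∧ z ≠ 0}, ι z), fun ε sp w hw => ?_⟩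
  refine Mark.markov ka (fun d => {y | ¬ ∃ z ∈ Z, γ d y = e d z}) η hB ε sp w hw _ fun y hy => ?_
  let S : Fin (Nat.card (Σ z : {z : Ga // z ∈ Z ∧ z ≠ 0}, ι z)) → Finset ℤ := fun i =>
    sp.filter fun d => γ d y = e d (φ.symm i).1.1 ∧ col (φ.symm i).1 d = (φ.symm i).2
  have hS : ∀ i, Dis (fun a => a = 0) (fun d => γ d y) (S i) := fun i =>
    Mark.dis_of_sep (hsep (φ.symm i).1 (φ.symm i).2) fun d hd => (Finset.mem_filter.1 hd).2
  have hy' : ¬ Cov (fun a => a = 0) (fun d => γ d y) sp w _ ε := hy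
  refine ⟨sp.filter fun d => ¬ γ d y = 0 ∧ ∀ i, d ∉ S i, Finset.filter_subset _ _, ?_, ?_⟩
  · intro d hd
    obtain ⟨hd1, hd2, hd3⟩ := Finset.mem_filter.1 hd
    rintro ⟨z, hz, hz'⟩
    have hz0 : z ≠ 0 := by
      rintro rfl
      exact hd2 (hz'.trans (he0 d))
    refine hd3 (φ ⟨⟨z, hz, hz0⟩, col ⟨z, hz, hz0⟩ d⟩) (Finset.mem_filter.2 ⟨hd1, ?_⟩)
    rw [φ.symm_apply_apply]
    exact ⟨hz', rfl⟩
  · by_contra hlt
    refine hy' ⟨S, hS, ?_⟩
    convert (not_le.1 hlt).le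

end

end Pool.Agent.MP_154433_an.T5A
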