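import Pool.Agent.MP_154433_an.t5a.SpecA

/-! Row Mod: the lemma on places for a module over a commutative group. -/

set_option autoImplicit false

open Set

namespace Pool.Agent.MP_154433_an.T5A

namespace Mod

theorem prim {R M : Type} [CommRing R] [IsNoetherianRing R] [AddCommGroup M] [Module R M]
    (z : M) (hz : z ≠ 0) :
    ∃ (b : R) (P : Ideal R), P.IsPrime ∧ ∀ c, c ∈ P ↔ c • b • z = 0 := by
  have hnt : Nontrivial (Submodule.span R {z}) := by
    refine ⟨⟨⟨z, Submodule.mem_span_singleton_self z⟩, 0, ?_⟩⟩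
    intro h
    exact hz (congrArg Subtype.val h)
  obtain ⟨P, hP⟩ := associatedPrimes.nonempty R (Submodule.span R {z})
  rw [AssociatedPrimes.mem_iff, isAssociatedPrime_iff] at hP
  obtain ⟨hpr, y, hy⟩ := hP
  obtain ⟨b, hb⟩ := Submodule.mem_span_singleton.mp y.2
  refine ⟨b, P, hpr, fun c => ?_⟩
  rw [hy, Submodule.mem_colon_singleton, Submodule.mem_bot, hb]
  exact ⟨fun h => congrArg Subtype.val h, fun h => Subtype.ext h⟩

theorem main (hP : PlaceO) {R M H : Type} [CommRing R] [IsNoetherianRing R] [AddCommGroup M]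
    [Module R M] [CommGroup H] (o : H →* R) (z : M) (hz : z ≠ 0) (c : ℤ → H) {Q : Type}
    (κ : H → Q) (D : Set Q) (hD : D.Finite) (hc : ∀ n m, κ (c (n + m) * (c n)⁻¹ * (c m)⁻¹) ∈ D)
    (hκ : ∀ g h, κ g = κ h → o g • z = o h • z) :
    (∃ b : R, b • z ≠ 0 ∧ (range fun d => o (c d) • b • z).Finite) ∨ Col fun d => o (c d) • z := by
  obtain ⟨b, P, hpr, hmem⟩ := prim (R := R) z hz
  let ψ : R →+* FractionRing (R ⧸ P) :=
    (algebraMap (R ⧸ P) (FractionRing (R ⧸ P))).comp (Ideal.Quotient.mk P)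
  have hψ : ∀ r s : R, ψ r = ψ s ↔ r • b • z = s • b • z := fun r s => by
    simp only [ψ, RingHom.comp_apply]
    rw [(IsFractionRing.injective (R ⧸ P) (FractionRing (R ⧸ P))).eq_iff, Ideal.Quotient.eq, hmem,
      sub_smul, sub_eq_zero]
  let χ : H →* (FractionRing (R ⧸ P))ˣ := (ψ.toMonoidHom.comp o).toHomUnits
  have hχ : ∀ g, (χ g : FractionRing (R ⧸ P)) = ψ (o g) := fun g => rfl
  have key : ∀ g h, χ g = χ h ↔ o g • b • z = o h • b • z := fun g h => by
    rw [← hψ, ← hχ, ← hχ, Units.val_inj]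
  have q : QH fun d => χ (c d) := by
    refine ⟨⋃ u ∈ D, {a | ∃ h, κ h = u ∧ χ h = a}, hD.biUnion fun u _ => Set.Subsingleton.finite ?_,
      fun n m => mem_iUnion₂.2 ⟨_, hc n m, _, rfl, by simp only [map_mul, map_inv]⟩⟩
    rintro _ ⟨g, e1, rfl⟩ _ ⟨h, e2, rfl⟩
    rw [key, smul_comm, hκ g h (e1.trans e2.symm), smul_comm]
  rcases hP _ _ q with h | ⟨ι, hι, col, h⟩
  · refine Or.inl ⟨b, fun e => hpr.ne_top ?_, (h.biUnion
      (t := fun u => {a | ∃ g, χ g = u ∧ o g • b • z = a})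
      fun u _ => Set.Subsingleton.finite ?_).subset ?_⟩
    · rw [Ideal.eq_top_iff_one, hmem, e, smul_zero]
    · rintro _ ⟨g, e1, rfl⟩ _ ⟨g', e2, rfl⟩
      exact (key g g').1 (e1.trans e2.symm)
    · rintro _ ⟨d, rfl⟩
      exact mem_iUnion₂.2 ⟨_, ⟨d, rfl⟩, _, rfl, rfl⟩
  · refine Or.inr ⟨ι, hι, col, fun j A B hA hB hAB e => h j A B hA hB hAB ?_⟩
    simp only [hχ, ← map_sum]
    rw [← Finset.sum_smul, ← Finset.sum_smul] at e
    rw [hψ, smul_comm, e, smul_comm]

end Mod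

theorem xMod : ModS := by
  intro hP Ga G _ _ _ S K ct z hS hct hQ hz hK
  classical
  set H := Subgroup.closure S with hH
  have : Group.FG H := by
    rw [Group.fg_iff_subgroup_fg, Subgroup.fg_iff]
    exact ⟨S, rfl, hS⟩
  have : Monoid.FG H := Group.fg_iff_monoid_fg.mp inferInstance
  have : IsNoetherianRing (MonoidAlgebra ℤ H) :=
    Algebra.FiniteType.isNoetherianRing ℤ (MonoidAlgebra ℤ H)
  let rho : H →* Module.End ℤ Ga := (DistribMulAction.toModuleEnd ℤ Ga).comp H.subtype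
  let phi : MonoidAlgebra ℤ H →ₐ[ℤ] Module.End ℤ Ga := MonoidAlgebra.lift ℤ (Module.End ℤ Ga) H rho
  let : Module (MonoidAlgebra ℤ H) Ga := Module.compHom Ga phi.toRingHom
  have hsm : ∀ (b : MonoidAlgebra ℤ H) (a : Ga), b • a = phi b a := fun _ _ => rfl
  have hof : ∀ (h : H) (a : Ga), (MonoidAlgebra.of ℤ H h) • a = (h : G) • a := by
    intro h a
    rw [hsm]
    simp [phi, rho]
  have hcomm : ∀ (g : G) (b : MonoidAlgebra ℤ H) (a : Ga), g • b • a = b • g • a := by
    intro g b a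
    induction b using MonoidAlgebra.induction_on with
    | of h => rw [hof, hof, smul_smul, smul_smul, mul_comm]
    | add f f' hf hf' => rw [add_smul, add_smul, smul_add, hf, hf']
    | smul n f hf =>
      rw [hsm, hsm, map_smul, LinearMap.smul_apply, LinearMap.smul_apply, ← hsm, ← hsm, ← hf]
      exact (DistribSMul.toAddMonoidHom Ga g).map_zsmul n _
  obtain ⟨D, hD, hc⟩ := hQ
  have := Mod.main hP (MonoidAlgebra.of ℤ H) z hz (fun d => (⟨ct d, hct d⟩ : H))
    (fun h => (QuotientGroup.mk (h : G) : G ⧸ K)) D hD (fun n m => hc n m) fun g h e => by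
      rw [hof, hof]
      have := hK _ (QuotientGroup.eq.1 e)
      rw [mul_smul, inv_smul_eq_iff] at this
      exact this.symm
  simp only [hof] at this
  rcases this with ⟨b, hb, h⟩ | h
  · exact Or.inl ⟨b • z, hb, fun g hg => by rw [hcomm, hK g hg], h⟩
  · exact Or.inr h

end Pool.Agent.MP_154433_an.T5A
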