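import Pool.Agent.MP_154433_an.t5a.SpecA
import Pool.Agent.MP_154433_an.t3a.FinA

/-! The finite places. -/

set_option autoImplicit false

open Set

namespace Pool.Agent.MP_154433_an.T5A

namespace Non

/-- an escaping sequence that depends only on the valuation gives finitely many classes -/
theorem col (hV : ValS) {F : Type} [Field F] (O : ValuationSubring F) (c : ℤ → Fˣ) (ψ : ℤ → ℝ)
    (h : ∀ d d', O.valuation (c d : F) = O.valuation (c d' : F) → ψ d = ψ d') (e : Esc ψ) :
    Col fun d => (c d : F) := by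
  obtain ⟨L, L0, hL⟩ := e 1
  have : NeZero L := ⟨L0.ne'⟩
  refine ⟨ZMod L, inferInstance, fun d => (d : ZMod L), fun j => hV F O c _ fun d hd d' hd' v => ?_⟩
  have e : (d : ZMod L) = (d' : ZMod L) := (show _ = j from hd).trans (show _ = j from hd').symm
  have q := h d d' v
  have a := (ZMod.intCast_eq_intCast_iff_dvd_sub d d' L).1 e
  have b := (ZMod.intCast_eq_intCast_iff_dvd_sub d' d L).1 e.symm
  rcases lt_trichotomy d d' with l | l | l
  · have := hL d d' (by have := Int.le_of_dvd (by omega) a; omega)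
    linarith
  · exact l
  · have := hL d' d (by have := Int.le_of_dvd (by omega) b; omega)
    linarith

theorem int {F : Type} [Field F] {u : F} (h : ∀ O : ValuationSubring F, u ∈ O) : IsIntegral ℤ u := by
  have a : u ∈ (integralClosure (Subring.closure (∅ : Set F)) F).toSubring := by
    rw [← iInf_valuationSubring_superset]
    exact Subring.mem_iInf.2 fun V => h V.1
  have : Algebra.IsIntegral ℤ (Subring.closure (∅ : Set F)) := ⟨fun x => by
    obtain ⟨n, hn⟩ := Subring.mem_bot.1 ((Subring.closure_empty (R := F)).le x.2)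
    rw [show x = algebraMap ℤ _ n from Subtype.ext (by simpa using hn.symm)]
    exact isIntegral_algebraMap⟩
  exact isIntegral_trans (A := Subring.closure (∅ : Set F)) u a

end Non

theorem xNon : NonS := by
  rintro hQ hV hD F _ c ⟨D, fD, hc⟩
  refine or_iff_not_imp_left.2 fun nc => ?_
  obtain ⟨H1, fg, m1, m2⟩ : ∃ H1 : Subgroup Fˣ, H1.FG ∧ (∀ d, c d ∈ H1) ∧ D ⊆ H1 :=
    ⟨_, (Subgroup.fg_iff _).2 ⟨_, rfl, fD.union (toFinite _)⟩, T3A.FinAux.quasi_gen c D hc,
      fun _ h => Subgroup.subset_closure (Or.inl h)⟩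
  have : Group.FG H1 := (Group.fg_iff_subgroup_fg H1).2 fg
  have : Module.Finite ℤ (Additive H1) := Module.Finite.iff_addGroup_fg.2 inferInstance
  let N : ValuationSubring F → AddSubgroup (Additive H1) := fun O =>
    (O.unitGroup.comap H1.subtype).toAddSubgroup
  have mN : ∀ O (a : Additive H1), a ∈ N O ↔ O.valuation ((a.toMul : Fˣ) : F) = 1 := fun O a =>
    O.mem_unitGroup_iff _
  let c' : ℤ → Additive H1 := fun d => Additive.ofMul ⟨c d, m1 d⟩
  obtain ⟨T, fT, hT⟩ := hD (Additive H1) (ValuationSubring F) N c' (fun O n a n0 h => by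
      rw [mN] at h ⊢
      have : O.valuation ((a.toMul : Fˣ) : F) ^ n = 1 := by simpa using h
      exact (pow_eq_one_iff_of_nonneg zero_le n0).1 this) fun O f hf => by
    have fin : {a : Additive H1 | (a.toMul : Fˣ) ∈ D}.Finite :=
      fD.preimage fun a _ b _ e => Subtype.ext e
    obtain ⟨B, hB⟩ := (fin.image fun a => |(f a : ℝ)|).bddAbove
    have eq : ∀ d d', O.valuation (c d : F) = O.valuation (c d' : F) →
        (f (c' d) : ℝ) = f (c' d') := fun d d' v => by
      have : f (c' d - c' d') = 0 := hf _ ((mN _ _).2 (by simp [c', v]))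
      rw [map_sub, sub_eq_zero] at this
      rw [this]
    rcases hQ (fun d => (f (c' d) : ℝ)) B (fun n m => by
      have := hB ⟨c' (n + m) - c' n - c' m, by simpa [c', div_eq_mul_inv] using hc n m, rfl⟩
      simpa using this) with ⟨C, h⟩ | h | h
    · exact ⟨⌈C⌉, fun d => by exact_mod_cast (h d).trans (Int.le_ceil C)⟩
    · exact (nc (Non.col hV O c _ eq h)).elim
    · exact (nc (Non.col hV O c _ (fun d d' v => by rw [eq d d' v]) h)).elim
  let K : Subgroup H1 := (⨅ O : ValuationSubring F, O.unitGroup).comap H1.subtype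
  have fK : K.FG := (Subgroup.fg_iff_add_fg K).2
    ((Submodule.fg_iff_addSubgroup_fg K.toAddSubgroup.toIntSubmodule).1 (IsNoetherian.noetherian _))
  refine ⟨c '' T, K.map H1.subtype, fT.image _, ?_, ?_, fun d => ?_⟩
  · obtain ⟨S, e, fS⟩ := (Subgroup.fg_iff _).1 fK
    exact (Subgroup.fg_iff _).2 ⟨_, by rw [← e, MonoidHom.map_closure], fS.image _⟩
  · rintro _ ⟨u, hu, rfl⟩
    exact Non.int fun O => (O.valuation_le_one_iff _).1
      ((O.mem_unitGroup_iff _).1 (Subgroup.mem_iInf.1 hu O)).le
  · obtain ⟨e, he, h⟩ := hT d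
    refine ⟨c e, mem_image_of_mem c he, (c' d - c' e).toMul, Subgroup.mem_iInf.2 fun O => h O, ?_⟩
    simp [c', div_eq_mul_inv]

end Pool.Agent.MP_154433_an.T5A
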