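import Pool.Agent.MP_154433_an.t5a.SpecB
import Pool.Agent.MP_154433_an.p4.B5

/-! The algebraic step for dissociated families: assembly on bundles. -/

set_option autoImplicit false
set_option linter.unusedVariables false
set_option linter.unusedSectionVars false

open MeasureTheory ProbabilityTheory Filter Topology Set
open scoped ENNReal

namespace Pool.Agent.MP_154433_an.T4A.T5B

open T3A T5A

noncomputable section

theorem algO_of (R : Rows) (pul : Pul2O) (rli : Rli2S) (tau : Tau2O) (psr : Psr2S) (fin : Fin2O) :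
    AlgO := by
  intro X V J _ _ _ _ _ B0 hg h0 hF hR hD
  obtain ⟨j0⟩ : Nonempty J := inferInstance
  obtain ⟨Ω, _, _, B, p0, e0⟩ := R.push ℤ X V J B0
  obtain ⟨q1, q2, -, -⟩ := R.pull ℤ X Ω V J B0 B p0 e0
  obtain ⟨q3, q4⟩ := pul X Ω V J B0 B p0 e0
  have h := q1.1 h0
  have hgB : AddSubgroup.closure (range B.a ∪ range B.b) = ⊤ := by rw [← e0.ha, ← e0.hb]; exact hg
  obtain ⟨κ, K, H, Ip, Φ, hκ, hw, hK, hK0, hL, hΦ⟩ := cons R B h j0 hgB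
  have hW := R.wk ℤ Ω V B.toBase H _ hK0
  have := hW.prob
  have := hκ.markov
  have := hL.fin
  have hI := (R.lae ℤ Ω V B.toBase κ _ hL).1 hK0.iso
  have fl0 : FlatM B (wOf B.μ (cmpL K j0 Finset.univ.toList)) :=
    ind_cmpL R hK j0 (fun K0 => FlatM B (wOf B.μ K0)) (flatM_of_flat (hw j0) (q2.1 hF))
      (fun j H0 K0 h1 h2 => R.cfl ℤ Ω V J B _ _ _ (kd_star R (hK j) h1).2
        (R.wk ℤ Ω V B.toBase _ _ (hK j)).inv (hK j).iso h1.iso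
        (flatM_of_flat (hw j) (q2.1 hF)) h2) _
  have fl : FlatM B (Lf B.toBase κ Φ) :=
    R.f4 ℤ Ω V J B κ _ Ip Φ hΦ (R.f3 ℤ Ω V J B _ (R.f2 ℤ Ω V J B _ fl0 h hW.src))
  obtain ⟨Y, _, _, B', p, e, S, S', hS⟩ := xHat R.iid R.xi ℤ Ω V J B κ _ Ip Φ hκ hΦ
  obtain ⟨r1, -, -, -⟩ := R.pull ℤ Y Ω V J B' B p hS.ext
  obtain ⟨r3, r4⟩ := pul Y Ω V J B' B p hS.ext
  have hgB' : AddSubgroup.closure (range B'.a ∪ range B'.b) = ⊤ := by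
    rw [hS.ext.ha, hS.ext.hb]; exact hgB
  obtain ⟨κ', K', H', Ip', Φ', hκ', hw', hK', hK0', hL', hΦ'⟩ := cons R B' (r1.2 h) j0 hgB'
  have := hκ'.markov
  have mK : ∀ j, IsMarkovKernel (K j) := fun j => (hK j).markov
  have mK' : ∀ j, IsMarkovKernel (K' j) := fun j => (hK' j).markov
  have := hK0.markov
  have := hK0'.markov
  have mp := hS.ext.mp.measurable
  have pk : ∀ j, PrK B'.μ p (K' j) (K j) := fun j =>
    R.pk ℤ Y Ω V J B' B p j (K' j) (K j) hS.ext (hw' j) (hw j)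
  have pk0 : ∀ l : List J, PrK B'.μ p (cmpL K' j0 l) (cmpL K j0 l) := by
    intro l
    induction l with
    | nil => exact pk j0
    | cons j l ih =>
      obtain ⟨_, -, k1⟩ := kd_cmpL R hK j0 l
      obtain ⟨_, -, k2⟩ := kd_cmpL R hK' j0 l
      have := k1.markov
      have := k2.markov
      exact R.cpr Y Ω V B'.μ p (K' j) _ (K j) _ mp (R.wk ℤ Y V B'.toBase _ _ (hK' j)).tgt (pk j) ih
  have hpr := R.prj ℤ Y Ω V J B' B p κ' κ _ _ hS.ext (pk0 _) hL' hL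
  have hkd := R.kd ℤ Y Ω B'.μ B.μ B'.T B.T κ' κ p B'.mp B.mp hκ'.toErgK hκ.toErgK hS.ext.mp
    hS.ext.comm
  have geq : ∀ i n y, loop (S i (tz B'.T n y)) (S' i (tz B'.T n y)) =
      sh B'.σ n n (loop (S i y) (S' i y)) := by
    intro i n y
    rw [hS.eqv, hS.eqv', loop_sh, hS.ext.hσ]
  have mg : ∀ i, Measurable fun y => loop (S i y) (S' i y) := fun i =>
    measurable_loop (hS.mS i) (hS.mS' i)
  have g5 := R.g5 ℤ Y Ω V J B' B p κ _ Ip Φ e S S' hS hΦ hI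
  have tot : ∀ j, ∀ᵐ z ∂(wOf B'.μ (K' j)), ∀ i, (loop (S i z.1.1) (S' i z.1.1)).Nonempty →
      ∀ c, ∃ c', (c, c') ∈ loop (S i z.1.2) (S' i z.1.2) := by
    intro j
    have w := R.wk ℤ Y V B'.toBase _ _ (hK' j)
    have c1 := w.conc (p ⁻¹' Ip) (mp hΦ.mI) fun n => EventuallyEq.of_eq (by
      ext y
      change p (tz B'.T n y) ∈ Ip ↔ p y ∈ Ip
      rw [hS.ext.comm, mem_tz B.T hΦ.inv])
    have c2 := ae_of_ae_map measurable_fst.fst.aemeasurable (w.src.symm ▸ g5)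
    have c3 := ae_of_ae_map measurable_fst.snd.aemeasurable (w.tgt.symm ▸ g5)
    filter_upwards [c1, c2, c3] with z h1 h2 h3 i hne c
    by_cases hz : p z.1.1 ∈ Ip
    · exact (h3.1 (h1 hz) i).totL c
    · rw [h2.2 hz i] at hne
      exact absurd hne Set.not_nonempty_empty
  have it0 : ItwW (fun i y => loop (S i y) (S' i y)) (wOf B'.μ (cmpL K' j0 Finset.univ.toList)) :=
    ind_cmpL R hK' j0 (fun K0 => ItwW (fun i y => loop (S i y) (S' i y)) (wOf B'.μ K0))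
      (R.int ℤ Y Ω V J B' B p κ Φ e S S' j0 _ hS fl (hw' j0))
      (fun j H0 K0 h1 h2 => R.cit Y V _ _ _ _ (kd_star R (hK' j) h1).2 mg (tot j)
        (R.int ℤ Y Ω V J B' B p κ Φ e S S' j _ hS fl (hw' j)) h2) _
  have po0 : ∀ᵐ y ∂B'.μ, (∀ j, y ∈ Sup (K' j)) → y ∈ Sup (cmpL K' j0 Finset.univ.toList) :=
    ind_cmpL R hK' j0 (fun K0 => ∀ᵐ y ∂B'.μ, (∀ j, y ∈ Sup (K' j)) → y ∈ Sup K0)
      (Eventually.of_forall fun y hy => hy j0)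
      (fun j H0 K0 h1 h2 => by
        filter_upwards [h2, R.cpo R.wk ℤ Y V B'.toBase _ _ _ _ (hK' j) h1] with y a1 a2 hy
        exact a2 (hy j) (a1 hy)) _
  obtain ⟨g1, g2⟩ := R.g4 ℤ Y Ω V J B' B p κ' κ _ _ Ip' Ip Φ' Φ e S S' hS hΦ' hΦ hpr hkd
  have k1 : ∀ᵐ z ∂(Lp B'.toBase κ' Ip' Φ'), Iso (B'.N z.1.1) (B'.N z.1.2) z.2 :=
    Filter.Eventually.filter_mono hΦ'.ac1.ae_le ((R.lae ℤ Y V B'.toBase κ' _ hL').1 hK0'.iso)
  have k2 : ∀ᵐ z ∂(Lp B'.toBase κ' Ip' Φ'), ∀ i, Itw (loop (S i z.1.1) (S' i z.1.1))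
      (loop (S i z.1.2) (S' i z.1.2)) z.2 :=
    Filter.Eventually.filter_mono hΦ'.ac1.ae_le
      ((R.lae ℤ Y V B'.toBase κ' _ hL').2 (fun i y => loop (S i y) (S' i y)) mg geq it0)
  have k3 : ∀ᵐ y ∂B'.μ, y ∈ Ip' → ∀ i, Iso (B'.N y) (B'.N y) (loop (S i y) (S' i y)) := by
    filter_upwards [g5, R.g3 ℤ Y Ω V J B' B p κ' κ _ _ Ip' Ip Φ' Φ mp hΦ' hΦ hpr] with y a1 a2 hy
    exact a1.1 (a2 hy)
  have hH : HatD B'.toBase κ' Ip' Φ' (fun i y => loop (S i y) (S' i y))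
      (fun z a b => Φ (p z.1, p z.2) {R | a ∈ R ∧ b ∈ R} ≠ 0) :=
    ⟨geq, fun n E hE h1 => hΦ'.ac1 (hL'.quasi 0 n E hE (hΦ'.ac2 h1)), k1, k2, g1, k3, g2⟩
  have rl := r3.2 (q3.1 hR) Ip' hΦ'.mI hΦ'.inv (rli Y V J B' κ' K' _ Ip' Φ' hw' po0 hL' hΦ')
  obtain ⟨A, N0, τ, G0, m2, hX, ⟨c, ε, δ, hε, hδ, hrel⟩, k, hdec⟩ := tau Y V B'.toBase κ'
    _ Ip' Φ' _ _ hκ' hΦ' hH rl (r4.2 (q4.1 hD))
  have : Countable (V ⧸ N0) := QuotientAddGroup.mk_surjective.countable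
  obtain ⟨θ, γ, hT⟩ := R.th R.mk' ℤ Y V A N0 τ G0 _ m2 hX
  obtain ⟨Ψ, hΨ⟩ := R.psi R.mk' ℤ Y V _ A θ hT.toTh
  obtain ⟨s1, s2⟩ := psr Y V _ A θ Ψ hT.toTh hΨ
  obtain ⟨s, ms, hs⟩ := R.sd R.mk' ℤ Y V _ A θ γ _ m2 hT hX.fst2 hX.iso2
  obtain ⟨C, c1, c2, c3⟩ := R.ct ℤ Y V _ A θ γ _ Ψ m2 s hT hΨ hX.fst2 hX.inv2 ms hs
  obtain ⟨Kc, hKc⟩ := fin _ Y A.μ A.T A.mp Ψ C c1 c2 hΨ.coc c3 (fun y => θ y c)
    (fun ξ => hT.mθ _ ξ) k (s2 k hdec) ε δ hε hδ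
  obtain ⟨sp, w, hp, hle⟩ := hrel Kc
  rw [inter_univ] at hle
  exact absurd (hle.trans (s1 c sp w Kc ε)) (not_le.2 (hKc sp w hp))

end

end Pool.Agent.MP_154433_an.T4A.T5B
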