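import Pool.Agent.MP_154433_an.t5a.SpecB
import Pool.Agent.MP_154433_an.p4.B4

/-! Covering and decay read in the trivialisation; passage to a commutative group. -/

set_option autoImplicit false
set_option linter.unusedVariables false

open MeasureTheory ProbabilityTheory Filter Topology Set
open scoped ENNReal

namespace Pool.Agent.MP_154433_an.T4A.T5B

open T3A T5A

namespace Psr2Aux

variable {V Γ : Type} [AddCommGroup V] [AddCommGroup Γ]

lemma dis_iff (θ : V →+ Γ) {n : V → Prop} (h : ∀ c, θ c = 0 ↔ n c) (v : ℤ → V) (S : Finset ℤ) :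
    Dis (fun a => a = 0) (fun d => θ (v d)) S ↔ Dis n v S := by
  unfold Dis
  simp only [← h, map_sub, map_sum]

lemma cov_of (θ : V →+ Γ) {n : V → Prop} (h : ∀ c, θ c = 0 ↔ n c) (v : ℤ → V) (sp : Finset ℤ)
    (w : ℤ → ℝ) (K : ℕ) (ε : ℝ) (hc : Cov (fun a => a = 0) (fun d => θ (v d)) sp w K ε) :
    Cov n v sp w K ε := by
  classical
  obtain ⟨S, h1, h2⟩ := hc
  refine ⟨S, fun i => (dis_iff θ h v _).1 (h1 i), le_trans (le_of_eq ?_) h2⟩
  refine Finset.sum_congr ?_ fun _ _ => rfl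
  ext d
  simp only [Finset.mem_filter, h]

lemma tend_of_le {a : ℕ → ℝ≥0∞}
    (h : ∀ ε : ℝ≥0∞, 0 < ε → ∃ (ι : Type) (S : Finset ι) (b : ι → ℕ → ℝ≥0∞),
      (∀ p ∈ S, Tendsto (b p) atTop (𝓝 0)) ∧ ∀ k, a k ≤ ε + ∑ p ∈ S, b p k) :
    Tendsto a atTop (𝓝 0) := by
  rw [ENNReal.tendsto_nhds_zero]
  intro ε hε
  have h2 : 0 < ε / 2 := ENNReal.div_pos hε.ne' (by norm_num)
  obtain ⟨ι, S, b, hb, hab⟩ := h _ h2
  have hs : Tendsto (fun i => ∑ p ∈ S, b p i) atTop (𝓝 0) := by
    have := tendsto_finsetSum S fun p hp => hb p hp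
    simpa using this
  filter_upwards [ENNReal.tendsto_nhds_zero.1 hs _ h2] with i hi
  calc a i ≤ ε / 2 + ∑ p ∈ S, b p i := hab i
    _ ≤ ε / 2 + ε / 2 := by gcongr
    _ = ε := ENNReal.add_halves ε

end Psr2Aux

theorem xPsr2 : Psr2S := by
  intro Ω V Γ _ _ _ _ _ A θ Ψ hθ hΨ
  refine ⟨fun c sp w K ε => measure_mono_ae ?_,
    fun k hk ξ ξ' hξ => Psr2Aux.tend_of_le fun ε hε => ?_⟩
  · filter_upwards [hθ.sur, hΨ.def'] with y h1 h2 hy hc
    refine hy (Psr2Aux.cov_of (θ y) h1.2 _ sp w K ε ?_)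
    have e : (fun d => Ψ d y (θ (tz A.T d y) c)) = fun d => θ y (sz A.σ d c) :=
      funext fun d => h2 d c
    rw [← e]
    exact hc
  · obtain ⟨S, hS⟩ := PsrAux.step hθ hΨ (ξ := ξ) hξ hε
    exact ⟨V × V, S, fun p i => A.μ (A.decS (k i) p.1 p.2), fun p _ => hk p.1 p.2,
      fun i => hS _⟩

theorem xFin2 : Fin2S := by
  classical
  intro core Ga _ _ Y _ m _ T hT P C hC hPC hco ht x hx k hdec ε δ hε hδ
  have hcm : IsMulCommutative (Subgroup.closure C) := Subgroup.isMulCommutative_closure hC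
  let : CommGroup (Subgroup.closure C) :=
    { (inferInstance : Group (Subgroup.closure C)) with
      mul_comm := fun a b => hcm.is_comm.comm a b }
  let P' : ℤ → Y → Subgroup.closure C := fun n y =>
    if h : P n y ∈ C then ⟨P n y, Subgroup.subset_closure h⟩ else 1
  have hall : ∀ᵐ y ∂m, ∀ n, (P' n y : Au Ga) = P n y := by
    filter_upwards [ae_all_iff.mpr hPC] with y hy n
    simp [P', hy n]
  have hsm : ∀ (g : Subgroup.closure C) (a : Ga), g • a = (g : Au Ga) a := fun _ _ => rfl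
  obtain ⟨K, hK⟩ := core Y Ga (Subgroup.closure C) m (tz T) hT P'
    (by
      intro n k
      filter_upwards [hco n k, hall, (hT n).quasiMeasurePreserving.ae hall] with y h1 h2 h3
      apply Subtype.ext
      rw [Subgroup.coe_mul, h2, h2, h3, h1])
    (by
      intro a eps he
      obtain ⟨F, hF⟩ := ht a eps he
      refine ⟨F, fun n => le_trans (le_of_eq (measure_congr ?_)) (hF n)⟩
      filter_upwards [Measure.quasiMeasurePreserving_fst.ae hall,
        Measure.quasiMeasurePreserving_snd.ae hall] with p h1 h2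
      show (((P' n p.2)⁻¹ * P' n p.1) • a ∉ F) = ((P n p.2)⁻¹ (P n p.1 a) ∉ F)
      rw [hsm, Subgroup.coe_mul, Subgroup.coe_inv, h1, h2]
      rfl)
    x (fun a => (hx a).nullMeasurableSet) k
    (by
      intro a b hb
      have e : (fun i : ℕ => m {y | P' (k i) y • a = b}) = fun i : ℕ => m {y | P (k i) y a = b} := by
        funext i
        refine measure_congr ?_
        filter_upwards [hall] with y hy
        show (_ = _) = (_ = _)
        simp only [hsm, hy]
      rw [e]
      exact hdec a b hb)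
    ε δ hε hδ
  refine ⟨K, fun sp w hw => lt_of_le_of_lt (le_of_eq (measure_congr ?_)) (hK sp w hw)⟩
  filter_upwards [hall] with y hy
  have e : (fun d => P' d y • x (tz T d y)) = fun d => P d y (x (tz T d y)) := by
    funext d
    simp only [hsm, hy]
  show (¬ Cov _ (fun d => P d y (x (tz T d y))) sp w K ε) =
    (¬ Cov _ (fun d => P' d y • x (tz T d y)) sp w K ε)
  rw [e]

end Pool.Agent.MP_154433_an.T4A.T5B
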