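import Pool.Agent.MP_154433_an.t5a.SpecB

/-! The covering events are measurable and pass to extensions. -/

set_option autoImplicit false

open MeasureTheory ProbabilityTheory Filter Topology Set
open scoped ENNReal

namespace Pool.Agent.MP_154433_an.T4A.T5B

open T3A T5A

theorem xNc : NcS := by
  classical
  intro Ω V _ _ A c sp w K ε
  have hN : ∀ u : V, Measurable fun y => u ∈ A.N y := fun u => measurableSet_setOfPred.1 (A.mN u)
  refine measurableSet_setOfPred.2 (Measurable.not (Measurable.exists fun S => Measurable.and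
    (Measurable.forall fun i => ?_) ?_))
  · exact Measurable.forall fun P => measurable_const.imp (Measurable.forall fun Q =>
      measurable_const.imp (measurable_const.imp (measurable_const.imp (hN _).not)))
  · simp only [Finset.sum_filter]
    refine measurableSet_setOfPred.1 (measurableSet_le (Finset.measurable_sum _ fun d _ => ?_)
      measurable_const)
    exact Measurable.ite (measurableSet_setOfPred.2 ((hN _).not.and measurable_const))
      measurable_const measurable_const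

namespace Pul2

variable {Y Ω V J : Type} [MeasurableSpace Y] [MeasurableSpace Ω] [AddCommGroup V]
  {B' : Bun ℤ Y V J} {B : Bun ℤ Ω V J} {p : Y → Ω}

theorem nc_eq (h : Ext B' B p) (c : V) (sp : Finset ℤ) (w : ℤ → ℝ) (K : ℕ) (ε : ℝ) :
    ncS B'.toBase c sp w K ε = p ⁻¹' ncS B.toBase c sp w K ε := by
  ext y
  simp only [ncS, mem_preimage, mem_ofPred_eq, h.hσ, h.hN]

/-- the points at which all arrows with label `d` are nonempty -/
def lv (B : Bun ℤ Ω V J) (M : ℕ) (d : ℤ × ℤ) : Set Ω :=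
  {y | ∀ j, ((0 : V), (0 : V)) ∈ B.Sg j M d y}

theorem lv_meas [Fintype J] (B : Bun ℤ Ω V J) (M : ℕ) (d : ℤ × ℤ) : MeasurableSet (lv B M d) :=
  measurableSet_setOfPred.2 (Measurable.forall fun j => (measurable_set_mem _).comp (B.mS j M d))

theorem lv_eq (h : Ext B' B p) (M : ℕ) (d : ℤ × ℤ) : lv B' M d = p ⁻¹' lv B M d := by
  ext y
  simp only [lv, mem_preimage, mem_ofPred_eq, h.hS]

theorem P_lv [Fintype J] (B : Bun ℤ Ω V J) (M : ℕ) {I : Set Ω} (hI : MeasurableSet I) :
    B.P M {z | (∀ j, ((0 : V), (0 : V)) ∈ B.Sg j M z.1 z.2) ∧ z.2 ∉ I} =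
      ∫⁻ d, B.μ (lv B M d \ I) ∂((B.ν M).prod (B.ν M)) := by
  have hE : MeasurableSet
      {z : (ℤ × ℤ) × Ω | (∀ j, ((0 : V), (0 : V)) ∈ B.Sg j M z.1 z.2) ∧ z.2 ∉ I} :=
    measurableSet_lab fun d => (lv_meas B M d).diff hI
  rw [Bun.P, PM_apply _ _ hE]
  rfl

end Pul2

open Pul2 in
theorem xPul2 : Pul2S := by
  intro hNc hSh Y Ω V J _ _ _ _ _ B' B p h
  refine ⟨⟨fun H I hI hinv hL => ?_, fun H I' hI' hinv' hL' => ?_⟩, ?_⟩
  · have hI' : MeasurableSet (p ⁻¹' I) := h.mp.measurable hI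
    obtain ⟨c, ε, δ, hε, hδ, hK⟩ := H (p ⁻¹' I) hI' (fun n => by
      ext y
      simp only [mem_preimage, h.comm, mem_tz B.T hinv]) (by
      unfold Lives Bun.Nul at hL ⊢
      rw [h.hU]
      refine hL.congr fun M => ?_
      rw [P_lv B M hI, P_lv B' M hI', h.hν]
      refine lintegral_congr fun d => ?_
      rw [lv_eq h, ← preimage_sdiff,
        h.mp.measure_preimage ((lv_meas B M d).diff hI).nullMeasurableSet])
    refine ⟨c, ε, δ, hε, hδ, fun K => ?_⟩
    obtain ⟨sp, w, hw, h1⟩ := hK K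
    refine ⟨sp, w, hw, ?_⟩
    rwa [nc_eq h, ← preimage_inter, h.mp.measure_preimage
      ((hNc Ω V B.toBase c sp w K ε).inter hI).nullMeasurableSet] at h1
  · obtain ⟨I, hI, hinv, hb⟩ := hSh Y Ω B'.μ B.μ B'.T B.T p B'.mp B.mp h.mp h.comm I' hI' hinv'
    obtain ⟨c, ε, δ, hε, hδ, hK⟩ := H I hI hinv (by
      unfold Lives Bun.Nul at hL' ⊢
      rw [h.hU] at hL'
      have h2 := ENNReal.Tendsto.const_mul (a := 2) hL' (Or.inr ENNReal.ofNat_ne_top)
      rw [mul_zero] at h2
      refine tendsto_of_tendsto_of_tendsto_of_le_of_le tendsto_const_nhds h2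
        (fun _ => zero_le) fun M => ?_
      show B.P M _ ≤ 2 * B'.P M _
      rw [P_lv B M hI, P_lv B' M hI', h.hν, ← lintegral_const_mul' _ _ ENNReal.ofNat_ne_top]
      refine lintegral_mono fun d => ?_
      rw [lv_eq h]
      exact (hb _ (lv_meas B M d)).2)
    refine ⟨c, ε, δ / 2, hε, ENNReal.half_pos hδ.ne', fun K => ?_⟩
    obtain ⟨sp, w, hw, h1⟩ := hK K
    refine ⟨sp, w, hw, ?_⟩
    rw [nc_eq h]
    refine ENNReal.div_le_of_le_mul' (h1.trans ?_)
    exact (hb _ (hNc Ω V B.toBase c sp w K ε)).1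
  · have e : ∀ n c c', B'.μ (B'.decS n c c') = B.μ (B.decS n c c') := fun n c c' => by
      rw [← h.mp.measure_preimage (B.measurableSet_decS n c c').nullMeasurableSet]
      congr 1
      ext y
      simp only [Base.decS, mem_preimage, mem_ofPred_eq, h.hσ, h.hN]
    simp only [Dec2, e]

end Pool.Agent.MP_154433_an.T4A.T5B
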