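import Pool.Agent.MP_154433_an.t5a.SpecA

/-! Row Qm: almost additive real sequences are bounded or escape. -/

set_option autoImplicit false

namespace Pool.Agent.MP_154433_an.T5A

namespace Qm

theorem esc {φ : ℤ → ℝ} {D : ℝ} (h : ∀ n m, φ n + φ m - D ≤ φ (n + m)) {n : ℤ} (hn : 0 < n)
    (hD : D < φ n) : Esc φ := by
  intro R
  have st : ∀ (k : ℕ) (d : ℤ), φ d + k * (φ n - D) ≤ φ (d + k * n) := fun k d => by
    induction k with
    | zero => simp
    | succ k ih =>
      have := h (d + k * n) n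
      have e : d + ((k + 1 : ℕ) : ℤ) * n = d + k * n + n := by
        push_cast
        ring
      rw [e]
      push_cast
      linarith
  obtain ⟨B, hB⟩ := ((Set.finite_Ico 0 n).image φ).bddBelow
  obtain ⟨k₀, hk⟩ := exists_nat_ge ((R + D - B) / (φ n - D))
  rw [div_le_iff₀ (by linarith)] at hk
  refine ⟨(k₀ + 1) * n.toNat, Nat.mul_pos k₀.succ_pos (by omega), fun d d' hd => ?_⟩
  have e : (((k₀ + 1) * n.toNat : ℕ) : ℤ) = (k₀ + 1) * n := by
    push_cast
    rw [Int.toNat_of_nonneg hn.le]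
  rw [e] at hd
  have h1 : (k₀ : ℤ) ≤ (d' - d) / n := Int.le_ediv_of_mul_le hn (by linarith)
  obtain ⟨k, hk'⟩ := Int.eq_ofNat_of_zero_le ((Int.natCast_nonneg k₀).trans h1)
  have h2 : B ≤ φ ((d' - d) % n) :=
    hB ⟨_, ⟨Int.emod_nonneg _ hn.ne', Int.emod_lt_of_pos _ hn⟩, rfl⟩
  have h3 := st k (d + (d' - d) % n)
  have h4 : d + (d' - d) % n + k * n = d' := by
    have := Int.emod_add_ediv_mul (d' - d) n
    rw [hk'] at this
    linarith
  have h5 := h d ((d' - d) % n)
  have h6 : (k₀ : ℝ) ≤ k := by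
    rw [hk'] at h1
    exact_mod_cast h1
  have h7 : (k₀ : ℝ) * (φ n - D) ≤ k * (φ n - D) := mul_le_mul_of_nonneg_right h6 (by linarith)
  rw [h4] at h3
  linarith

end Qm

theorem xQm : QmS := by
  intro φ D h
  by_cases h1 : ∃ n, 0 < n ∧ D < φ n
  · obtain ⟨n, hn, hD⟩ := h1
    exact .inr (.inl (Qm.esc (fun n m => by linarith [(abs_le.1 (h n m)).1]) hn hD))
  by_cases h2 : ∃ n, 0 < n ∧ D < -φ n
  · obtain ⟨n, hn, hD⟩ := h2
    exact .inr (.inr (Qm.esc (φ := fun n => -φ n)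
      (fun n m => by linarith [(abs_le.1 (h n m)).2]) hn hD))
  push Not at h1 h2
  have h0 := abs_le.1 (h 0 0)
  rw [add_zero] at h0
  refine .inl ⟨3 * D, fun n => abs_le.2 ?_⟩
  rcases lt_trichotomy n 0 with hn | rfl | hn
  · have h3 := abs_le.1 (h n (-n))
    rw [add_neg_cancel] at h3
    have h4 := h1 (-n) (by omega)
    have h5 := h2 (-n) (by omega)
    constructor <;> linarith [h0.1, h0.2, h3.1, h3.2]
  · constructor <;> linarith [h0.1, h0.2]
  · have h4 := h1 n hn
    have h5 := h2 n hn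
    constructor <;> linarith [h0.1, h0.2]

end Pool.Agent.MP_154433_an.T5A
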