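import Pool.Agent.MP_154433_an.t5a.SpecB
import Pool.Agent.MP_154433_an.p4.B3

/-! The arrows live on the part of the space where arrows between all pairs exist. -/

set_option autoImplicit false

open MeasureTheory ProbabilityTheory Filter Topology Set
open scoped ENNReal

namespace Pool.Agent.MP_154433_an.T4A.T5B

open T3A T5A

theorem xRli2 : Rli2S := by
  intro Ω V J _ _ _ _ B κ _ K _ K0 _ Ip Φ hw h0 hL hΦ
  have := hΦ.markov
  have h1 := (hL.nul _ (measurable_fst.fst hΦ.mI.compl)).1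
    (hΦ.ac2 (RliAux.lp_off B.toBase κ hΦ.mI Φ)) 0
  have e : ({z | ((0 : V), (0 : V)) ∈ z.2} ∩ B.toBase.sA 0 0 ⁻¹'
      ((fun z : (Ω × Ω) × Arr V => z.1.1) ⁻¹' Ipᶜ)) =
      {z | ((0 : V), (0 : V)) ∈ z.2 ∧ z.1.1 ∈ Ipᶜ} := by
    ext z
    simp
  rw [e, RliAux.wOf_src _ _ hΦ.mI.compl,
    setLIntegral_eq_zero_iff hΦ.mI.compl (K0.measurable_coe (measurableSet_memA measurable_snd _))]
    at h1
  have hN : MeasurableSet {y | (∀ j, y ∈ Sup (K j)) ∧ y ∉ Ip} := by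
    have : MeasurableSet (⋂ j, Sup (K j)) := MeasurableSet.iInter fun j => measurableSet_Sup _
    convert this.inter hΦ.mI.compl using 1
    ext y
    simp
  have hN0 : B.μ {y | (∀ j, y ∈ Sup (K j)) ∧ y ∉ Ip} = 0 := by
    rw [measure_eq_zero_iff_ae_notMem]
    filter_upwards [h0, h1] with y a b c
    exact a c.1 (b c.2)
  have h2 : ∀ j, Tendsto (fun M => B.P M
      {z | ((0 : V), (0 : V)) ∈ B.Sg j M z.1 z.2 ∧ z.2 ∈ (Sup (K j))ᶜ}) B.U (𝓝 0) := by
    intro j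
    have a := (hw j).2 _ ((Cyl.mem ((0 : V), (0 : V))).and
      (Cyl.fst _ (measurableSet_Sup (K j)).compl))
    rw [RliAux.wOf_src _ _ (measurableSet_Sup (K j)).compl,
      setLIntegral_eq_zero (measurableSet_Sup (K j)).compl fun y hy => not_not.1 hy] at a
    exact a
  have h3 := tendsto_finsetSum Finset.univ fun j _ => h2 j
  rw [Finset.sum_const_zero] at h3
  refine tendsto_of_tendsto_of_tendsto_of_le_of_le tendsto_const_nhds h3 (fun _ => zero_le)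
    fun M => ?_
  have hs : {z : (ℤ × ℤ) × Ω | (∀ j, ((0 : V), (0 : V)) ∈ B.Sg j M z.1 z.2) ∧ z.2 ∉ Ip} ⊆
      {z | z.2 ∈ {y | (∀ j, y ∈ Sup (K j)) ∧ y ∉ Ip}} ∪
        ⋃ j, {z | ((0 : V), (0 : V)) ∈ B.Sg j M z.1 z.2 ∧ z.2 ∈ (Sup (K j))ᶜ} := by
    intro z hz
    by_cases h : ∀ j, z.2 ∈ Sup (K j)
    · exact Or.inl ⟨h, hz.2⟩
    · obtain ⟨j, hj⟩ := not_forall.1 h
      exact Or.inr (mem_iUnion.2 ⟨j, hz.1 j, hj⟩)
  refine (measure_mono hs).trans ((measure_union_le _ _).trans ?_)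
  rw [RliAux.snd_null B M hN hN0, zero_add]
  exact measure_iUnion_fintype_le _ _

end Pool.Agent.MP_154433_an.T4A.T5B
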