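import Pool.Agent.MP_154433_an.t5a.SpecB

/-! Row Shad: the shadow of an invariant set of an extension. -/

set_option autoImplicit false
set_option linter.unusedVariables false

open MeasureTheory ProbabilityTheory Filter Topology Set
open scoped ENNReal

namespace Pool.Agent.MP_154433_an.T4A.T5B

open T3A T5A

noncomputable section

namespace Shad

lemma le_iUnion {Ω : Type} [MeasurableSpace Ω] (μ ν : Measure Ω) (f : ℕ → Set Ω)
    (hf : ∀ k, MeasurableSet (f k))
    (h : ∀ k t, MeasurableSet t → t ⊆ f k → μ t ≤ ν t) (A : Set Ω) (hA : MeasurableSet A) :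
    μ (A ∩ ⋃ k, f k) ≤ ν A := by
  have hD : ∀ k, MeasurableSet (A ∩ disjointed f k) := fun k =>
    hA.inter (MeasurableSet.disjointed hf k)
  have e : (A ∩ ⋃ k, f k) = ⋃ k, A ∩ disjointed f k := by
    rw [← iUnion_disjointed, inter_iUnion]
  calc μ (A ∩ ⋃ k, f k) ≤ ∑' k, μ (A ∩ disjointed f k) := by rw [e]; exact measure_iUnion_le _
    _ ≤ ∑' k, ν (A ∩ disjointed f k) := ENNReal.tsum_le_tsum fun k =>
        h k _ (hD k) (inter_subset_right.trans (disjointed_subset f k))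
    _ = ν (⋃ k, A ∩ disjointed f k) := (measure_iUnion (fun i j hij =>
        ((disjoint_disjointed f) hij).mono inter_subset_right inter_subset_right) hD).symm
    _ ≤ ν A := measure_mono (iUnion_subset fun k => inter_subset_left)

end Shad

theorem xShad : ShadS := by
  intro Y Ω _ _ μ' _ μ _ T' T p hT' hT hp hc I' hI' hinv
  obtain ⟨m, hm⟩ : ∃ m : Measure Ω, m = (μ'.restrict I').map p := ⟨_, rfl⟩
  have : IsFiniteMeasure m := by rw [hm]; infer_instance
  have mt : ∀ t, MeasurableSet t → m t = μ' (p ⁻¹' t ∩ I') := fun t ht => by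
    rw [hm, Measure.map_apply hp.measurable ht, Measure.restrict_apply (hp.measurable ht)]
  have minv : ∀ n t, MeasurableSet t → m (T4A.tz T n ⁻¹' t) = m t := fun n t ht => by
    rw [mt _ ((hT n).measurable ht), mt _ ht,
      ← (hT' n).measure_preimage ((hp.measurable ht).inter hI').nullMeasurableSet,
      preimage_inter, hinv n]
    congr 2
    ext y
    simp only [mem_preimage, hc]
  have : IsFiniteMeasure ((2 : ℝ≥0∞) • m) :=
    ⟨by rw [Measure.smul_apply, smul_eq_mul]; finiteness⟩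
  obtain ⟨s, hs, h1, h2⟩ := hahn_decomposition ((2 : ℝ≥0∞) • m) μ
  simp only [Measure.smul_apply, smul_eq_mul] at h1 h2
  have tadd : ∀ a b y, T4A.tz T (a + b) y = T4A.tz T a (T4A.tz T b y) := T.add
  have tzero : ∀ y, T4A.tz T 0 y = y := T.zero
  have h3 : ∀ (n : ℤ) t, MeasurableSet t → t ⊆ T4A.tz T n ⁻¹' s →
      μ t ≤ ((2 : ℝ≥0∞) • m) t := by
    intro n t ht hts
    rw [Measure.smul_apply, smul_eq_mul, ← minv (-n) t ht,
      ← (hT (-n)).measure_preimage ht.nullMeasurableSet]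
    refine h1 _ ((hT (-n)).measurable ht) fun z hz => ?_
    have := hts hz
    rwa [mem_preimage, ← tadd, add_neg_cancel, tzero] at this
  have hI : MeasurableSet (⋃ n : ℤ, T4A.tz T n ⁻¹' s) :=
    MeasurableSet.iUnion fun n => (hT n).measurable hs
  refine ⟨⋃ n : ℤ, T4A.tz T n ⁻¹' s, hI, fun k => ?_, fun A hA => ⟨?_, ?_⟩⟩
  · ext y
    simp only [mem_preimage, mem_iUnion, ← tadd]
    exact ⟨fun ⟨n, hn⟩ => ⟨_, hn⟩, fun ⟨n, hn⟩ => ⟨n - k, by rwa [sub_add_cancel]⟩⟩
  · have e : (⋃ n : ℤ, T4A.tz T n ⁻¹' s) =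
        ⋃ k : ℕ, T4A.tz T ((Denumerable.eqv ℤ).symm k) ⁻¹' s :=
      ((Denumerable.eqv ℤ).symm.surjective.iUnion_comp fun n => T4A.tz T n ⁻¹' s).symm
    have := Shad.le_iUnion μ ((2 : ℝ≥0∞) • m) _ (fun k => (hT _).measurable hs)
      (fun k => h3 ((Denumerable.eqv ℤ).symm k)) A hA
    rwa [← e, Measure.smul_apply, smul_eq_mul, mt A hA] at this
  · have ht := hA.diff hI
    have hsub : A \ (⋃ n : ℤ, T4A.tz T n ⁻¹' s) ⊆ sᶜ := fun y hy hys =>
      hy.2 (mem_iUnion.2 ⟨0, by rwa [mem_preimage, tzero]⟩)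
    have h4 := h2 _ ht hsub
    have h5 := measure_inter_add_sdiff (μ := μ') (p ⁻¹' (A \ ⋃ n : ℤ, T4A.tz T n ⁻¹' s)) hI'
    rw [hp.measure_preimage ht.nullMeasurableSet] at h5
    rw [mt _ ht, ← h5, two_mul] at h4
    have h6 := (ENNReal.add_le_add_iff_left (measure_ne_top _ _)).1 h4
    rw [← h5, two_mul]
    have h7 : μ' (p ⁻¹' (A \ ⋃ n : ℤ, T4A.tz T n ⁻¹' s) \ I') ≤ μ' (p ⁻¹' A \ I') :=
      measure_mono (sdiff_subset_sdiff_left (preimage_mono sdiff_subset))
    exact add_le_add (h6.trans h7) h7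

end

end Pool.Agent.MP_154433_an.T4A.T5B
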