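import Pool.Agent.MP_154433_an.t5a.SpecB

/-! Row Shz: equivariance for all powers, decay along one sequence. -/

set_option autoImplicit false
set_option linter.unusedVariables false

open MeasureTheory ProbabilityTheory Filter Topology Set
open scoped ENNReal

namespace Pool.Agent.MP_154433_an.T4A.T5B

open T3A T5A

namespace Shz

variable {ν : T3x.Wt} {U : Ultrafilter ℕ} {X : T3x.Sys}

lemma av2_mono (M : ℕ) {φ ψ : T3x.Lab → ℝ} (h : ∀ l, φ l ≤ ψ l) : ν.av2 M φ ≤ ν.av2 M ψ :=
  Finset.sum_le_sum fun d _ => mul_le_mul_of_nonneg_left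
    (Finset.sum_le_sum fun d' _ => mul_le_mul_of_nonneg_left (h _) (ν.nn M d')) (ν.nn M d)

lemma av2_const (M : ℕ) (c : ℝ) : ν.av2 M (fun _ => c) = c := by
  simp only [T3x.Wt.av2, T3x.Wt.av, smul_eq_mul, ← Finset.sum_mul, ν.one, one_mul]

lemma av2_add (M : ℕ) (φ ψ : T3x.Lab → ℝ) :
    ν.av2 M (fun l => φ l + ψ l) = ν.av2 M φ + ν.av2 M ψ := by
  simp only [T3x.Wt.av2, T3x.Wt.av, smul_eq_mul, mul_add, Finset.sum_add_distrib]

lemma mp (k : ℤ) : MeasurePreserving (X.Tz k) X.μ X.μ := T3A.mp_tz X.mp k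

lemma T_Tz (k : ℤ) (y : X.X) : X.T (X.Tz k y) = X.Tz (k + 1) y := T3A.T_tz X.T k y

lemma nul_step {E E₁ E₂ : T3x.Lab → Set X.X} (k : ℤ) (h₁ : T3x.Nl ν U X E₁)
    (h₂ : T3x.Nl ν U X E₂) (h : ∀ l y, y ∈ E l → y ∈ E₁ l ∨ X.Tz k y ∈ E₂ l) :
    T3x.Nl ν U X E := by
  have hs := h₁.add h₂
  rw [add_zero] at hs
  refine tendsto_of_tendsto_of_tendsto_of_le_of_le tendsto_const_nhds hs (fun M => ?_) fun M => ?_
  · exact (av2_const M 0).ge.trans (av2_mono M fun l => measureReal_nonneg)
  · refine (av2_mono M fun l => ?_).trans_eq (av2_add M _ _)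
    refine (measureReal_mono (s₂ := E₁ l ∪ X.Tz k ⁻¹' E₂ l) (h l)).trans
      ((measureReal_union_le _ _).trans (add_le_add le_rfl ?_))
    refine ENNReal.toReal_mono (measure_ne_top _ _) ?_
    exact (Measure.le_map_apply (mp k).measurable.aemeasurable _).trans_eq (by rw [(mp k).map_eq])

variable {V : Type} [AddCommGroup V] (sg : AddAut V)

lemma sg_succ (k : ℤ) (a : V) : ((k + 1) • sg) a = (k • sg) (sg a) := by
  rw [add_zsmul, one_zsmul, AddAut.add_apply]

lemma sg_pred (k : ℤ) (a : V) : ((k - 1) • sg) a = (k • sg) (sg.symm a) := by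
  have h := sg_succ sg (k - 1) (sg.symm a)
  rw [sub_add_cancel, AddEquiv.apply_symm_apply] at h
  exact h.symm

end Shz

open Shz in
theorem xShz : ShzS := by
  intro ν U X V _ sg N Sg n H
  refine ⟨fun k => ?_, fun k => ?_⟩
  · induction k using Int.induction_on with
    | zero =>
      intro v
      refine ae_of_all _ fun x => ?_
      rw [zero_zsmul]
      exact Iff.rfl
    | succ k ih =>
      intro v
      filter_upwards [ih (sg v), (mp k).quasiMeasurePreserving.ae (H.nsh v)] with x h1 h2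
      rw [sg_succ, h1, h2, T_Tz]
    | pred k ih =>
      intro v
      filter_upwards [ih (sg.symm v),
        (mp (-(k : ℤ) - 1)).quasiMeasurePreserving.ae (H.nsh (sg.symm v))] with x h1 h2
      rw [T_Tz, sub_add_cancel, AddEquiv.apply_symm_apply] at h2
      rw [sg_pred, h1, h2]
  · induction k using Int.induction_on with
    | zero =>
      intro a a'
      have e : ∀ l, {y | ¬ (y ∈ Sg l (((0 : ℤ) • sg) a) (((0 : ℤ) • sg) a') ↔
          X.Tz 0 y ∈ Sg l a a')} = ∅ := fun l => by
        rw [zero_zsmul]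
        exact eq_empty_of_forall_notMem fun y hy => hy Iff.rfl
      simp only [T3x.Nl, e, measureReal_empty, av2_const]
      exact tendsto_const_nhds
    | succ k ih =>
      intro a a'
      refine nul_step k (ih (sg a) (sg a')) (H.sh a a') fun l y hy => ?_
      simp only [mem_ofPred_eq, sg_succ, ← T_Tz] at hy ⊢
      tauto
    | pred k ih =>
      intro a a'
      refine nul_step (-(k : ℤ) - 1) (ih (sg.symm a) (sg.symm a'))
        (H.sh (sg.symm a) (sg.symm a')) fun l y hy => ?_
      simp only [mem_ofPred_eq, sg_pred, T_Tz, sub_add_cancel, AddEquiv.apply_symm_apply] at hy ⊢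
      tauto

open Shz in
theorem xDek : DekS := by
  intro ν U X V _ _ sg N h
  obtain ⟨e, he⟩ := exists_surjective_nat (V × V)
  have h1 : ∀ i : ℕ, Tendsto (fun M => ν.av2 M fun l => ∑ j ∈ Finset.range i,
      X.μ.real (N (((l.2.1 - l.2.2) • sg) (e j).1 - (e j).2) \ N (e j).2)) U (𝓝 0) := fun i => by
    induction i with
    | zero => simp only [Finset.range_zero, Finset.sum_empty, av2_const, tendsto_const_nhds]
    | succ i ih =>
      simp only [Finset.sum_range_succ, av2_add]
      simpa only [add_zero] using ih.add (h (e i).1 (e i).2)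
  have h2 : ∀ i : ℕ, ∃ l : T3x.Lab, ∑ j ∈ Finset.range i,
      X.μ.real (N (((l.2.1 - l.2.2) • sg) (e j).1 - (e j).2) \ N (e j).2) ≤
        1 / ((i : ℝ) + 1) := fun i => by
    by_contra c
    push Not at c
    obtain ⟨M, hM⟩ := ((h1 i).eventually (gt_mem_nhds (Nat.one_div_pos_of_nat (n := i)))).exists
    exact absurd ((av2_const M _).ge.trans (av2_mono M fun l => (c l).le)) hM.not_ge
  choose l hl using h2
  refine ⟨fun i => (l i).2.1 - (l i).2.2, fun a a' => ?_⟩
  obtain ⟨j, hj⟩ := he (a, a')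
  refine (ENNReal.tendsto_toReal_zero_iff fun _ => measure_ne_top _ _).1 ?_
  refine tendsto_of_tendsto_of_tendsto_of_le_of_le' tendsto_const_nhds
    tendsto_one_div_add_atTop_nhds_zero_nat (Eventually.of_forall fun _ => ENNReal.toReal_nonneg) ?_
  filter_upwards [eventually_gt_atTop j] with i hi
  refine le_trans ?_ (hl i)
  have := Finset.single_le_sum (f := fun j => X.μ.real
    (N ((((l i).2.1 - (l i).2.2) • sg) (e j).1 - (e j).2) \ N (e j).2))
    (fun _ _ => measureReal_nonneg) (Finset.mem_range.2 hi)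
  rw [hj] at this
  exact this

end Pool.Agent.MP_154433_an.T4A.T5B
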