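import Mathlib

/-! The last step for dissociated families: definitions and statements of the algebraic rows. -/

set_option autoImplicit false
set_option linter.unusedVariables false

open MeasureTheory Filter Topology Set
open scoped ENNReal

namespace Pool.Agent.MP_154433_an.T5A

noncomputable section

/-- no signed relation modulo `n` among the members of the family `v` with index in `S` -/
def Dis {V : Type} [AddCommGroup V] (n : V → Prop) (v : ℤ → V) (S : Finset ℤ) : Prop :=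
  ∀ P ∈ S.powerset, ∀ Q ∈ S.powerset, Disjoint P Q → (P ∪ Q).Nonempty →
    ¬ n (∑ d ∈ P, v d - ∑ d ∈ Q, v d)

open Classical in
/-- `K` dissociated classes cover the nontrivial members up to weight `ε` -/
def Cov {V : Type} [AddCommGroup V] (n : V → Prop) (v : ℤ → V) (sp : Finset ℤ) (w : ℤ → ℝ)
    (K : ℕ) (ε : ℝ) : Prop :=
  ∃ S : Fin K → Finset ℤ, (∀ i, Dis n v (S i)) ∧
    ∑ d ∈ sp.filter (fun d => ¬ n (v d) ∧ ∀ i, d ∉ S i), w d ≤ ε

/-- probability weights on a finite set -/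
def Pw (sp : Finset ℤ) (w : ℤ → ℝ) : Prop := (∀ d, 0 ≤ w d) ∧ ∑ d ∈ sp, w d = 1

/-- no signed relation among the members with index in `S` -/
def Sep {A : Type} [AddCommGroup A] (v : ℤ → A) (S : Set ℤ) : Prop :=
  ∀ P Q : Finset ℤ, (P : Set ℤ) ⊆ S → (Q : Set ℤ) ⊆ S → Disjoint P Q →
    ∑ d ∈ P, v d = ∑ d ∈ Q, v d → P = ∅ ∧ Q = ∅

/-- finitely many classes without relations -/
def Col {A : Type} [AddCommGroup A] (v : ℤ → A) : Prop :=
  ∃ (ι : Type) (_ : Finite ι) (col : ℤ → ι), ∀ j, Sep v {d | col d = j}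

/-- multiplicative up to a finite set -/
def QH {Q : Type} [CommGroup Q] (c : ℤ → Q) : Prop :=
  ∃ D : Set Q, D.Finite ∧ ∀ n m, c (n + m) * (c n)⁻¹ * (c m)⁻¹ ∈ D

/-- uniform escape to infinity -/
def Esc (φ : ℤ → ℝ) : Prop :=
  ∀ R : ℝ, ∃ L : ℕ, 0 < L ∧ ∀ d d' : ℤ, d + L ≤ d' → φ d + R ≤ φ d'

/-- almost additive real sequences are bounded or escape -/
def QmS : Prop :=
  ∀ (φ : ℤ → ℝ) (D : ℝ), (∀ n m, |φ (n + m) - φ n - φ m| ≤ D) →
    (∃ C : ℝ, ∀ n, |φ n| ≤ C) ∨ Esc φ ∨ Esc fun n => -φ n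

/-- distinct valuations: no relation -/
def ValS : Prop :=
  ∀ (F : Type) [Field F] (O : ValuationSubring F) (c : ℤ → Fˣ) (S : Set ℤ),
    (∀ d ∈ S, ∀ d' ∈ S, O.valuation (c d : F) = O.valuation (c d' : F) → d = d') →
    Sep (fun d => (c d : F)) S

/-- a dominant term: no relation -/
def DomS : Prop :=
  ∀ (u : ℤ → ℂ) (S : Set ℤ), (∀ d, u d ≠ 0) →
    (∀ d ∈ S, ∀ d' ∈ S, d ≠ d' → 3 * ‖u d‖ ≤ ‖u d'‖ ∨ 3 * ‖u d'‖ ≤ ‖u d‖) → Sep u S

/-- bounded under all forms that kill one of the pure subgroups: finitely many classes -/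
def DualS : Prop :=
  ∀ (A ι : Type) [AddCommGroup A] [Module.Finite ℤ A] (N : ι → AddSubgroup A) (c : ℤ → A),
    (∀ i (n : ℕ) (a : A), n ≠ 0 → n • a ∈ N i → a ∈ N i) →
    (∀ i (f : A →+ ℤ), (∀ a ∈ N i, f a = 0) → ∃ C : ℤ, ∀ d, |f (c d)| ≤ C) →
    ∃ T : Set ℤ, T.Finite ∧ ∀ d, ∃ e ∈ T, ∀ i, c d - c e ∈ N i

/-- the finite places -/
def NonO : Prop :=
  ∀ (F : Type) [Field F] (c : ℤ → Fˣ), QH c → Col (fun d => (c d : F)) ∨
    ∃ (T : Set Fˣ) (H : Subgroup Fˣ), T.Finite ∧ H.FG ∧ (∀ u ∈ H, IsIntegral ℤ (u : F)) ∧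
      ∀ d, ∃ f ∈ T, c d * f⁻¹ ∈ H

def NonS : Prop := QmS → ValS → DualS → NonO

/-- integral units in positive characteristic -/
def UnpS : Prop :=
  ∀ (F : Type) [Field F] (p : ℕ) [CharP F p], p ≠ 0 → ∀ H : Subgroup Fˣ, H.FG →
    (∀ u ∈ H, IsIntegral ℤ (u : F)) → (H : Set Fˣ).Finite

/-- integral units in characteristic zero: the infinite places -/
def UnzO : Prop :=
  ∀ (F : Type) [Field F] [CharZero F] (H : Subgroup Fˣ) (u : ℤ → Fˣ), H.FG →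
    (∀ a ∈ H, IsIntegral ℤ (a : F)) → (∀ d, u d ∈ H) → QH u →
    (range u).Finite ∨ Col fun d => (u d : F)

def UnzS : Prop := QmS → DomS → UnzO

/-- the lemma on places -/
def PlaceO : Prop :=
  ∀ (F : Type) [Field F] (c : ℤ → Fˣ), QH c → (range c).Finite ∨ Col fun d => (c d : F)

def PlaceS : Prop := NonO → UnpS → UnzO → PlaceO

/-- the same for a module over a commutative group -/
def ModO : Prop :=
  ∀ (Ga G : Type) [AddCommGroup Ga] [CommGroup G] [DistribMulAction G Ga] (S : Set G)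
    (K : Subgroup G) (ct : ℤ → G) (z : Ga), S.Finite → (∀ d, ct d ∈ Subgroup.closure S) →
    QH (fun d => (QuotientGroup.mk (ct d) : G ⧸ K)) → z ≠ 0 → (∀ g ∈ K, g • z = z) →
    (∃ z' : Ga, z' ≠ 0 ∧ (∀ g ∈ K, g • z' = z') ∧ (range fun d => ct d • z').Finite) ∨
      Col fun d => ct d • z

def ModS : Prop := PlaceO → ModO

/-- a tight cocycle with values in a commutative group follows a fixed sequence -/
def DriftS : Prop :=
  ∀ (Om Ga G : Type) [MeasurableSpace Om] (ka : Measure Om) [IsProbabilityMeasure ka]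
    [AddCommGroup Ga] [Countable Ga] [CommGroup G] [DistribMulAction G Ga] (T : ℤ → Om → Om),
    (∀ n, MeasurePreserving (T n) ka ka) →
  ∀ (P : ℤ → Om → G), (∀ n k, ∀ᵐ y ∂ka, P (n + k) y = P n y * P k (T n y)) →
    (∀ (a : Ga) (ε : ℝ≥0∞), 0 < ε → ∃ F : Finset Ga, ∀ n,
      (ka.prod ka) {p | ((P n p.2)⁻¹ * P n p.1) • a ∉ F} ≤ ε) →
  ∀ (x : Om → Ga), (∀ a, NullMeasurableSet {y | x y = a} ka) →
  ∀ η : ℝ≥0∞, 0 < η → η + η + η < 1 →
    ∃ (S : Set G) (K : Subgroup G) (ct : ℤ → G) (Z : Set Ga) (F0 : Set G),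
      S.Finite ∧ (∀ d, ct d ∈ Subgroup.closure S) ∧
      QH (fun d => (QuotientGroup.mk (ct d) : G ⧸ K)) ∧ Z.Finite ∧
      (∀ z ∈ Z, ∀ g ∈ K, g • z = z) ∧ F0.Finite ∧
      (∀ d, ka {y | ¬ ∃ z ∈ Z, P d y • x (T d y) = ct d • z} ≤ η + η) ∧
      ∀ d, ka {y | ¬ ∃ f ∈ F0, ∀ z : Ga, (∀ g ∈ K, g • z = z) → P d y • z = f • ct d • z} ≤ η

/-- covering by the classes of finitely many fixed families -/
def MarkS : Prop :=
  ∀ (Om Ga : Type) [MeasurableSpace Om] (ka : Measure Om) [AddCommGroup Ga] (γ : ℤ → Om → Ga)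
    (Z : Set Ga) (e : ℤ → Ga → Ga) (η : ℝ≥0∞), Z.Finite → (∀ d, e d 0 = 0) →
    (∀ z ∈ Z, z ≠ 0 → Col fun d => e d z) →
    (∀ d, ka {y | ¬ ∃ z ∈ Z, γ d y = e d z} ≤ η) →
    ∃ K : ℕ, ∀ (ε : ℝ) (sp : Finset ℤ) (w : ℤ → ℝ), Pw sp w →
      ENNReal.ofReal ε * ka {y | ¬ Cov (fun a => a = 0) (fun d => γ d y) sp w K ε} ≤ η

/-- a tight cocycle with values in a commutative group that decays is covered -/
def CoreO : Prop :=
  ∀ (Om Ga G : Type) [MeasurableSpace Om] (ka : Measure Om) [IsProbabilityMeasure ka]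
    [AddCommGroup Ga] [Countable Ga] [CommGroup G] [DistribMulAction G Ga] (T : ℤ → Om → Om),
    (∀ n, MeasurePreserving (T n) ka ka) →
  ∀ (P : ℤ → Om → G), (∀ n k, ∀ᵐ y ∂ka, P (n + k) y = P n y * P k (T n y)) →
    (∀ (a : Ga) (ε : ℝ≥0∞), 0 < ε → ∃ F : Finset Ga, ∀ n,
      (ka.prod ka) {p | ((P n p.2)⁻¹ * P n p.1) • a ∉ F} ≤ ε) →
  ∀ (x : Om → Ga), (∀ a, NullMeasurableSet {y | x y = a} ka) →
  ∀ (k : ℕ → ℤ), (∀ a b : Ga, b ≠ 0 → Tendsto (fun i => ka {y | P (k i) y • a = b}) atTop (𝓝 0)) →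
  ∀ (ε : ℝ) (δ : ℝ≥0∞), 0 < ε → 0 < δ → ∃ K : ℕ, ∀ (sp : Finset ℤ) (w : ℤ → ℝ), Pw sp w →
    ka {y | ¬ Cov (fun a => a = 0) (fun d => P d y • x (T d y)) sp w K ε} < δ

def CoreS : Prop := ModO → DriftS → MarkS → CoreO

end

end Pool.Agent.MP_154433_an.T5A
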