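import Pool.Agent.MP_154433_an.t4a.Spec
import Pool.Agent.MP_154433_an.t5a.SpecA
import Pool.Agent.MP_154433_an.t5.Defs1

/-! The algebraic step for dissociated families: statements of the rows on bundles. -/

set_option autoImplicit false
set_option linter.unusedVariables false

open MeasureTheory ProbabilityTheory Filter Topology Set
open scoped ENNReal

namespace Pool.Agent.MP_154433_an.T4A.T5B

open T3A T5A

noncomputable section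

section

variable {Ω V J : Type} [MeasurableSpace Ω] [AddCommGroup V]

/-- the arrows live on `I` in the limit -/
def Lives (B : Bun ℤ Ω V J) (I : Set Ω) : Prop :=
  B.Nul fun M => {z | (∀ j, ((0 : V), (0 : V)) ∈ B.Sg j M z.1 z.2) ∧ z.2 ∉ I}

/-- the points at which the orbit of `c` is not covered -/
def ncS (A : Base ℤ Ω V) (c : V) (sp : Finset ℤ) (w : ℤ → ℝ) (K : ℕ) (ε : ℝ) : Set Ω :=
  {y | ¬ Cov (fun u => u ∈ A.N y) (fun d => sz A.σ d c) sp w K ε}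

/-- many points of `I` are not covered, for every number of classes -/
def RelI (A : Base ℤ Ω V) (I : Set Ω) : Prop :=
  ∃ (c : V) (ε : ℝ) (δ : ℝ≥0∞), 0 < ε ∧ 0 < δ ∧ ∀ K : ℕ, ∃ (sp : Finset ℤ) (w : ℤ → ℝ),
    Pw sp w ∧ δ ≤ A.μ (ncS A c sp w K ε ∩ I)

def Rel2 (B : Bun ℤ Ω V J) : Prop :=
  ∀ I : Set Ω, MeasurableSet I → (∀ n, tz B.T n ⁻¹' I = I) → Lives B I → RelI B.toBase I

/-- decay along a sequence of shifts -/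
def Dec2 (A : Base ℤ Ω V) : Prop :=
  ∃ k : ℕ → ℤ, ∀ c c' : V, Tendsto (fun i => A.μ (A.decS (k i) c c')) atTop (𝓝 0)

end

def NcS : Prop :=
  ∀ (Ω V : Type) [MeasurableSpace Ω] [AddCommGroup V] (A : Base ℤ Ω V) (c : V) (sp : Finset ℤ)
    (w : ℤ → ℝ) (K : ℕ) (ε : ℝ), MeasurableSet (ncS A c sp w K ε)

/-- the shadow of an invariant set of an extension -/
def ShadS : Prop :=
  ∀ (Y Ω : Type) [MeasurableSpace Y] [MeasurableSpace Ω] (μ' : Measure Y)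
    [IsProbabilityMeasure μ'] (μ : Measure Ω) [IsProbabilityMeasure μ] (T' : Act ℤ Y)
    (T : Act ℤ Ω) (p : Y → Ω), MP T' μ' → MP T μ → MeasurePreserving p μ' μ →
    (∀ n y, p (tz T' n y) = tz T n (p y)) → ∀ I' : Set Y, MeasurableSet I' →
    (∀ n, tz T' n ⁻¹' I' = I') → ∃ I : Set Ω, MeasurableSet I ∧ (∀ n, tz T n ⁻¹' I = I) ∧
      ∀ A : Set Ω, MeasurableSet A →
        μ (A ∩ I) ≤ 2 * μ' (p ⁻¹' A ∩ I') ∧ μ (A \ I) ≤ 2 * μ' (p ⁻¹' A \ I')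

def Pul2O : Prop :=
  ∀ (Y Ω V J : Type) [MeasurableSpace Y] [MeasurableSpace Ω] [AddCommGroup V] [Countable V]
    [Fintype J] (B' : Bun ℤ Y V J) (B : Bun ℤ Ω V J) (p : Y → Ω), Ext B' B p →
    (Rel2 B' ↔ Rel2 B) ∧ (Dec2 B'.toBase ↔ Dec2 B.toBase)

def Pul2S : Prop := NcS → ShadS → Pul2O

def Rli2S : Prop :=
  ∀ (Ω V J : Type) [MeasurableSpace Ω] [AddCommGroup V]
    [Countable V] [Fintype J] (B : Bun ℤ Ω V J) (κ : Kernel Ω Ω) [IsMarkovKernel κ]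
    (K : J → Kernel Ω (Ω × Arr V)) [∀ j, IsMarkovKernel (K j)] (K0 : Kernel Ω (Ω × Arr V))
    [IsMarkovKernel K0] (Ip : Set Ω) (Φ : Kernel (Ω × Ω) (Arr V)),
    (∀ j, IsLim B j (wOf B.μ (K j))) → (∀ᵐ y ∂B.μ, (∀ j, y ∈ Sup (K j)) → y ∈ Sup K0) →
    LamP B.toBase κ (wOf B.μ K0) → PhiD B.toBase κ (Lam B.toBase (wOf B.μ K0)) Ip Φ → Lives B Ip

def Tau2O : Prop :=
  ∀ (Ω V : Type) [MeasurableSpace Ω] [AddCommGroup V] [Countable V] (B : Base ℤ Ω V)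
    (κ : Kernel Ω Ω) (L : Measure ((Ω × Ω) × Arr V)) (Ip : Set Ω)
    (Φ : Kernel (Ω × Ω) (Arr V)) (g : ℕ → Ω → Arr V) (Pos : Ω × Ω → V × V → V × V → Prop),
    ErgP B.μ B.T κ → PhiD B κ L Ip Φ → HatD B κ Ip Φ g Pos → RelI B Ip → Dec2 B →
    ∃ (A : Base ℤ Ω V) (N0 : AddSubgroup V) (τ : Ω → Arr V) (G0 : ℕ → Arr V)
      (m2 : Measure ((Ω × Ω) × Arr V)), FixD A N0 τ G0 g m2 ∧ RelI A univ ∧ Dec2 A

def Tau2S : Prop := NcS → T1S → T2S → SelS → SubS → Tau2O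

def Psr2S : Prop :=
  ∀ (Ω V Γ : Type) [MeasurableSpace Ω] [AddCommGroup V] [Countable V] [AddCommGroup Γ]
    [Countable Γ] (A : Base ℤ Ω V) (θ : Ω → V →+ Γ) (Ψ : ℤ → Ω → Au Γ), Th A θ → Coc A θ Ψ →
    (∀ (c : V) (sp : Finset ℤ) (w : ℤ → ℝ) (K : ℕ) (ε : ℝ), A.μ (ncS A c sp w K ε) ≤
      A.μ {y | ¬ Cov (fun a => a = 0) (fun d => Ψ d y (θ (tz A.T d y) c)) sp w K ε}) ∧
    ∀ k : ℕ → ℤ, (∀ c c' : V, Tendsto (fun i => A.μ (A.decS (k i) c c')) atTop (𝓝 0)) →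
      ∀ ξ ξ' : Γ, ξ' ≠ 0 → Tendsto (fun i => A.μ {y | Ψ (k i) y ξ = ξ'}) atTop (𝓝 0)

/-- the last step -/
def Fin2O : Prop :=
  ∀ (Γ : Type) [AddCommGroup Γ] [Countable Γ] (Y : Type) [MeasurableSpace Y] (m : Measure Y)
    [IsProbabilityMeasure m] (T : Act ℤ Y), MP T m →
  ∀ (Ψ : ℤ → Y → Au Γ) (C : Set (Au Γ)), (∀ a ∈ C, ∀ b ∈ C, a * b = b * a) →
    (∀ n, ∀ᵐ y ∂m, Ψ n y ∈ C) → (∀ n k, ∀ᵐ y ∂m, Ψ (n + k) y = Ψ n y * Ψ k (tz T n y)) →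
    (∀ ξ : Γ, ∀ ε : ℝ≥0∞, 0 < ε → ∃ F : Finset Γ, ∀ n,
      (m.prod m) {p | (Ψ n p.2)⁻¹ (Ψ n p.1 ξ) ∉ F} ≤ ε) →
  ∀ (x : Y → Γ), (∀ ξ, MeasurableSet {y | x y = ξ}) →
  ∀ (k : ℕ → ℤ), (∀ ξ ξ' : Γ, ξ' ≠ 0 → Tendsto (fun i => m {y | Ψ (k i) y ξ = ξ'}) atTop (𝓝 0)) →
  ∀ (ε : ℝ) (δ : ℝ≥0∞), 0 < ε → 0 < δ → ∃ K : ℕ, ∀ (sp : Finset ℤ) (w : ℤ → ℝ), Pw sp w →
    m {y | ¬ Cov (fun a => a = 0) (fun d => Ψ d y (x (tz T d y))) sp w K ε} < δ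

def Fin2S : Prop := T5A.CoreO → Fin2O

/-- the algebraic step on bundles -/
def AlgO : Prop :=
  ∀ (X V J : Type) [MeasurableSpace X] [AddCommGroup V] [Countable V] [Fintype J] [Nonempty J]
    (B : Bun ℤ X V J), AddSubgroup.closure (range B.a ∪ range B.b) = ⊤ →
    H0 B → Flat B → Rel2 B → Dec2 B.toBase → False

/-- equivariance for all powers -/
def ShzS : Prop :=
  ∀ (ν : T3x.Wt) (U : Ultrafilter ℕ) (X : T3x.Sys) (V : Type) [AddCommGroup V] (sg : AddAut V)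
    (N : V → Set X.X) (Sg : T3x.Lab → V → V → Set X.X) (n : T3x.Lab → ℤ),
    T5x.AlgD1 ν U X sg N Sg n →
    (∀ (k : ℤ) (v : V), ∀ᵐ x ∂X.μ, x ∈ N ((k • sg) v) ↔ X.Tz k x ∈ N v) ∧
    ∀ (k : ℤ) (a a' : V), T3x.Nl ν U X fun l =>
      {y | ¬ (y ∈ Sg l ((k • sg) a) ((k • sg) a') ↔ X.Tz k y ∈ Sg l a a')}

/-- decay along one sequence of shifts -/
def DekS : Prop :=
  ∀ (ν : T3x.Wt) (U : Ultrafilter ℕ) (X : T3x.Sys) (V : Type) [AddCommGroup V] [Countable V]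
    (sg : AddAut V) (N : V → Set X.X),
    (∀ a a', T3x.Nl ν U X fun l => N (((l.2.1 - l.2.2) • sg) a - a') \ N a') →
    ∃ k : ℕ → ℤ, ∀ a a', Tendsto (fun i => X.μ (N ((k i • sg) a - a') \ N a')) atTop (𝓝 0)

end

end Pool.Agent.MP_154433_an.T4A.T5B
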