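import Pool.Agent.MP_154433_an.t5a.SpecB
import Pool.Agent.MP_154433_an.p4.B3

/-! Row Tau2: passage to one component keeps the uncovered points and the decay. -/

set_option autoImplicit false
set_option linter.unusedVariables false

open MeasureTheory ProbabilityTheory Filter Topology Set
open scoped ENNReal

namespace Pool.Agent.MP_154433_an.T4A.T5B

open T3A T5A

noncomputable section

namespace Tau2

/-- more classes cover more -/
theorem cov_mono {V : Type} [AddCommGroup V] {n : V → Prop} {v : ℤ → V} {sp : Finset ℤ}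
    {w : ℤ → ℝ} {K K1 : ℕ} {ε : ℝ} (h : K ≤ K1) (hc : T5A.Cov n v sp w K ε) :
    T5A.Cov n v sp w K1 ε := by
  classical
  obtain ⟨S, hS, hw⟩ := hc
  refine ⟨fun i => if hi : (i : ℕ) < K then S ⟨i, hi⟩ else ∅, fun i => ?_, ?_⟩
  · by_cases hi : (i : ℕ) < K
    · simp only [dif_pos hi]
      exact hS _
    · simp only [dif_neg hi]
      intro P hP Q hQ _ hne
      rw [Finset.powerset_empty, Finset.mem_singleton] at hP hQ
      rw [hP, hQ] at hne
      simp at hne
  · refine le_trans (le_of_eq (Finset.sum_congr ?_ fun _ _ => rfl)) hw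
    ext d
    simp only [Finset.mem_filter]
    refine and_congr_right fun _ => and_congr_right fun _ => ⟨fun H i => ?_, fun H i => ?_⟩
    · have := H ⟨i, lt_of_lt_of_le i.2 h⟩
      rwa [dif_pos i.2] at this
    · by_cases hi : (i : ℕ) < K
      · rw [dif_pos hi]; exact H _
      · rw [dif_neg hi]; exact Finset.notMem_empty d

theorem avgI {Ω : Type} [MeasurableSpace Ω] {μ : Measure Ω} {T : Act ℤ Ω} {κ : Kernel Ω Ω}
    (h : ErgK μ T κ) {E I : Set Ω} (hE : MeasurableSet E) (hI : MeasurableSet I)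
    (hT : ∀ n, tz T n ⁻¹' I = I) :
    ∫⁻ a, I.indicator (fun a => κ a E) a ∂μ = μ (E ∩ I) := by
  have hm : Measurable (I.indicator (1 : Ω → ℝ≥0∞)) := measurable_one.indicator hI
  have e1 : ∀ a, I.indicator (fun a => κ a E) a = I.indicator (1 : Ω → ℝ≥0∞) a * κ a E := by
    intro a
    by_cases ha : a ∈ I
    · simp [ha]
    · simp [ha]
  simp only [e1]
  rw [h.int _ hm (fun n y => by
    have := mem_tz T hT n y
    by_cases hy : y ∈ I
    · simp [hy, this.2 hy]
    · simp [hy, mt this.1 hy]) _ hE, lintegral_indicator_one hI, Measure.restrict_apply hI,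
    inter_comm]

end Tau2

open Tau2 TauAux in
theorem xTau2 : Tau2S := by
  intro hN h1 h2 hS hU Ω V _ _ _ B κ L Ip Φ g Pos hE hP hH hrel hdec
  obtain ⟨c, ε, δ, hε, hδ, hrel⟩ := hrel
  obtain ⟨k, hdec⟩ := hdec
  choose sp w hw hrel using hrel
  have := hE.markov
  have := hP.markov
  obtain ⟨t1, t1'⟩ := h1 ℤ Ω V B κ L Ip Φ hE hP
  have q1 := t1 _ (hH.iso.and hH.itw)
  have q2 := h2 ℤ Ω V B κ Ip Φ hE hP.mI hH.quasi _ (hH.iso.and (hH.itw.and hH.pos))
  have q3 : ∀ᵐ a ∂B.μ, ∀ᵐ y ∂(κ a), y ∈ Ip → ∀ i, Iso (B.N y) (B.N y) (g i y) := by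
    have := hH.gi
    rw [← hE.bind] at this
    exact Measure.ae_ae_of_ae_comp this
  have q4 := Measure.ae_ae_of_ae_compProd hH.hit
  have q5 := hE.conc Ip hP.mI hP.inv
  obtain ⟨s, hs, q6⟩ := hU Ω (V × V) B.μ (fun i q a => κ a (B.decS (k i) q.1 q.2))
    (fun i q => κ.measurable_coe (B.measurableSet_decS _ _ _))
    (fun q => by
      simp only [avg0 hE.toErgK (B.measurableSet_decS _ _ _)]
      exact hdec q.1 q.2)
  obtain ⟨a, ⟨⟨⟨⟨⟨⟨⟨⟨a1, a2⟩, a3⟩, a4⟩, a5⟩, a6⟩, a7⟩, a8⟩, a9⟩, hR⟩ := hS Ω B.μ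
    (fun K => Ip.indicator (fun a => κ a (ncS B c (sp K) (w K) K ε))) δ _
    (fun K => (κ.measurable_coe (hN Ω V B c _ _ K ε)).indicator hP.mI)
    (fun K x => le_trans (indicator_le_self _ _ x) prob_le_one) hδ
    (Eventually.frequently (Eventually.of_forall fun K => by
      rw [avgI hE.toErgK (hN Ω V B c _ _ K ε) hP.mI hP.inv]
      exact hrel K))
    ((((((((hE.mp.and q5).and q1).and t1').and q2).and hH.gi).and q3).and q4).and q6)
  have ha : a ∈ Ip := by
    by_contra hc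
    obtain ⟨M, this⟩ := hR.exists
    rw [indicator_of_notMem hc] at this
    exact absurd this (not_le.2 (ENNReal.half_pos hδ.ne'))
  obtain ⟨τ, mτ, hτ⟩ := a5 ha
  have hin : ∀ᵐ y ∂(κ a), y ∈ Ip := a2 ha
  refine ⟨{ B with μ := κ a, prob := inferInstance, mp := a1 }, B.N a, τ,
    fun i => g i a, ((κ a).prod (κ a)) ⊗ₘ Φ,
    ⟨mτ, hH.geq, a6 ha, ?_, ?_, ?_, Measure.fst_compProd _ _, a4, a3 ha⟩,
    ⟨c, ε, δ / 2, hε, ENNReal.half_pos hδ.ne', fun K => ?_⟩,
    fun i => k (s i), fun c c' => a9 (c, c')⟩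
  · filter_upwards [hin, a7] with y hy h using h hy
  · filter_upwards [hτ] with y h
    have := h 0
    rw [neg_zero, sh_zero, tz_zero] at this
    exact ⟨this.1, this.2.1⟩
  · filter_upwards [hτ, a8] with y h hh n p q ⟨e, p1, p2⟩ ⟨e', q1, q2⟩
    have h0 := h 0
    rw [neg_zero, sh_zero, tz_zero] at h0
    exact hh (p.1, e) (q.1, e') (p.2, e) (q.2, e') ((h n).2.2 _ p1 _ q1) (h0.2.2 _ p2 _ q2) rfl rfl
  · obtain ⟨K1, hK1, hM⟩ := frequently_atTop.1 hR K
    rw [indicator_of_mem ha] at hM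
    refine ⟨sp K1, w K1, hw K1, hM.trans ?_⟩
    rw [inter_univ]
    exact measure_mono fun y hy hc => hy (cov_mono hK1 hc)

end

end Pool.Agent.MP_154433_an.T4A.T5B
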