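import Pool.Agent.MP_154433_an.t5a.SpecA

/-! Integral units in positive characteristic, and the lemma on places. -/

set_option autoImplicit false
set_option linter.unusedVariables false

open Set
open scoped Pointwise

namespace Pool.Agent.MP_154433_an.T5A

namespace Unp

lemma finOrd {F : Type} [Field F] (p : ℕ) [CharP F p] (hp : p ≠ 0) (u : Fˣ)
    (hu : IsIntegral ℤ (u : F)) : IsOfFinOrder u := by
  have : Fact p.Prime := ⟨CharP.char_prime_of_ne_zero F hp⟩
  let _ : Algebra (ZMod p) F := ZMod.algebra F p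
  have h1 : IsIntegral (ZMod p) (u : F) := hu.tower_top
  have h2 : Module.Finite (ZMod p) (Algebra.adjoin (ZMod p) {(u : F)}).toSubmodule :=
    Module.Finite.iff_fg.2 h1.fg_adjoin_singleton
  have h3 : Finite (Algebra.adjoin (ZMod p) {(u : F)}).toSubmodule :=
    Module.finite_of_finite (ZMod p)
  have h4 : ((Algebra.adjoin (ZMod p) {(u : F)}).toSubmodule : Set F).Finite := Set.toFinite _
  refine finite_powers.1 ((h4.preimage Units.val_injective.injOn).subset ?_)
  rintro _ ⟨n, rfl⟩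
  have h5 : (u : F) ^ n ∈ Algebra.adjoin (ZMod p) {(u : F)} :=
    pow_mem (Algebra.subset_adjoin (mem_singleton _)) n
  simpa using h5

lemma sep_mul {F : Type} [Field F] {u c : ℤ → F} {S S' : Set ℤ} {f : F} (hf : f ≠ 0)
    (h : Sep u S) (hS : S' ⊆ S) (e : ∀ d ∈ S', c d = u d * f) : Sep c S' := by
  intro P Q hP hQ hd hs
  refine h P Q (hP.trans hS) (hQ.trans hS) hd (mul_right_cancel₀ hf ?_)
  rw [Finset.sum_mul, Finset.sum_mul, ← Finset.sum_congr rfl fun d hd => e d (hP hd),
    ← Finset.sum_congr rfl fun d hd => e d (hQ hd), hs]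

end Unp

theorem xUnp : UnpS := by
  intro F _ p _ hp H hH hi
  have := (Group.fg_iff_subgroup_fg H).2 hH
  have h : Finite H := CommGroup.finite_of_fg_isMulTorsion (G := H) fun g => by
    obtain ⟨n, hn, e⟩ := isOfFinOrder_iff_pow_eq_one.1 (Unp.finOrd p hp g.1 (hi _ g.2))
    exact isOfFinOrder_iff_pow_eq_one.2 ⟨n, hn, Subtype.ext (by simpa using e)⟩
  exact Set.toFinite _

theorem xPlace : PlaceS := by
  intro hN hP hZ F _ c hc
  rcases hN F c hc with h | ⟨T, H, hT, hH, hi, hm⟩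
  · exact Or.inr h
  choose f hf hu using hm
  have e : ∀ d, c d = c d * (f d)⁻¹ * f d := fun d => by simp
  have key : ∀ W : Set Fˣ, W.Finite → (∀ d, c d * (f d)⁻¹ ∈ W) → (range c).Finite :=
    fun W hW h => (hW.mul hT).subset (by
      rintro _ ⟨d, rfl⟩
      rw [e d]
      exact Set.mul_mem_mul (h d) (hf d))
  by_cases hp : ringChar F = 0
  · have : CharP F 0 := hp ▸ ringChar.charP F
    have : CharZero F := CharP.charP_to_charZero F
    have hq : QH fun d => c d * (f d)⁻¹ := by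
      obtain ⟨D, hD, h⟩ := hc
      refine ⟨D * T⁻¹ * T * T, ((hD.mul hT.inv).mul hT).mul hT, fun n m => ?_⟩
      have e2 : c (n + m) * (f (n + m))⁻¹ * (c n * (f n)⁻¹)⁻¹ * (c m * (f m)⁻¹)⁻¹ =
          c (n + m) * (c n)⁻¹ * (c m)⁻¹ * (f (n + m))⁻¹ * f n * f m := by
        simp only [mul_inv, inv_inv]
        ac_rfl
      change c (n + m) * (f (n + m))⁻¹ * (c n * (f n)⁻¹)⁻¹ * (c m * (f m)⁻¹)⁻¹ ∈ _
      rw [e2]
      exact Set.mul_mem_mul (Set.mul_mem_mul (Set.mul_mem_mul (h n m)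
        (Set.inv_mem_inv.2 (hf _))) (hf _)) (hf _)
    rcases hZ F H _ hH hi hu hq with h | ⟨ι, hι, col, h⟩
    · exact Or.inl (key _ h fun d => mem_range_self d)
    · have := hT.to_subtype
      refine Or.inr ⟨ι × T, inferInstance, fun d => (col d, ⟨f d, hf d⟩), fun j => ?_⟩
      refine Unp.sep_mul (j.2.1.ne_zero) (h j.1) (fun d hd => congrArg Prod.fst hd) fun d hd => ?_
      have e3 : f d = j.2.1 := congrArg (fun x : ι × T => x.2.1) hd
      rw [← e3, ← Units.val_mul, ← e d]
  · exact Or.inl (key _ (hP F (ringChar F) hp H hH hi) hu)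

end Pool.Agent.MP_154433_an.T5A
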