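import Pool.Agent.MP_154433_an.t5a.SpecA

/-! Integral units in characteristic zero: the infinite places. -/

set_option autoImplicit false

open Set

namespace Pool.Agent.MP_154433_an.T5A

namespace Unz

theorem three_le {a b : ℝ} (ha : 0 < a) (hb : 0 < b) (h : Real.log a + Real.log 3 ≤ Real.log b) :
    3 * a ≤ b := by
  rw [← Real.log_mul ha.ne' (by norm_num), Real.log_le_log_iff (by positivity) hb] at h
  linarith

/-- escape gives finitely many classes with dominant terms -/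
theorem col_esc (hD : DomS) (z : ℤ → ℂ) (hz : ∀ d, z d ≠ 0)
    (h : Esc (fun d => Real.log ‖z d‖) ∨ Esc fun d => -Real.log ‖z d‖) : Col z := by
  have key : ∃ L : ℕ, 0 < L ∧ ∀ d d' : ℤ, d + L ≤ d' →
      3 * ‖z d‖ ≤ ‖z d'‖ ∨ 3 * ‖z d'‖ ≤ ‖z d‖ := by
    rcases h with h | h
    · obtain ⟨L, hL, H⟩ := h (Real.log 3)
      exact ⟨L, hL, fun d d' hd => Or.inl
        (three_le (norm_pos_iff.2 (hz d)) (norm_pos_iff.2 (hz d')) (H d d' hd))⟩
    · obtain ⟨L, hL, H⟩ := h (Real.log 3)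
      exact ⟨L, hL, fun d d' hd => Or.inr
        (three_le (norm_pos_iff.2 (hz d')) (norm_pos_iff.2 (hz d)) (by linarith [H d d' hd]))⟩
  obtain ⟨L, hL, H⟩ := key
  have : NeZero L := ⟨hL.ne'⟩
  refine ⟨ZMod L, inferInstance, fun d => (d : ZMod L), fun j => hD z _ hz fun d hd d' hd' hne => ?_⟩
  have h1 : (d : ZMod L) = (d' : ZMod L) := hd.trans hd'.symm
  have h2 : (L : ℤ) ∣ d' - d := (ZMod.intCast_eq_intCast_iff_dvd_sub d d' L).1 h1
  rcases lt_or_gt_of_ne hne with hlt | hlt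
  · have := Int.le_of_dvd (by omega) h2
    exact H d d' (by omega)
  · have := Int.le_of_dvd (show 0 < -(d' - d) by omega) ((dvd_neg).2 h2)
    exact (H d' d (by omega)).symm

/-- the statement inside a number field -/
theorem nf (hQ : QmS) (hD : DomS) (K : Type) [Field K] [NumberField K] (v : ℤ → K)
    (h0 : ∀ d, v d ≠ 0) (hi : ∀ d, IsIntegral ℤ (v d)) (D : Set K) (hD' : D.Finite)
    (hq : ∀ n m, v (n + m) * (v n)⁻¹ * (v m)⁻¹ ∈ D) : (range v).Finite ∨ Col v := by
  by_cases hall : ∀ σ : K →+* ℂ, ∃ C : ℝ, ∀ n, |Real.log ‖σ (v n)‖| ≤ C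
  · left
    choose C hC using hall
    obtain ⟨B, hB⟩ := (Set.finite_range C).bddAbove
    refine (NumberField.Embeddings.finite_of_norm_le K ℂ (Real.exp B)).subset ?_
    rintro _ ⟨d, rfl⟩
    refine ⟨hi d, fun σ => ?_⟩
    have h1 : 0 < ‖σ (v d)‖ := norm_pos_iff.2 ((map_ne_zero σ).2 (h0 d))
    rw [← Real.exp_log h1]
    exact Real.exp_le_exp.2 (((le_abs_self _).trans (hC σ d)).trans (hB ⟨σ, rfl⟩))
  · right
    obtain ⟨σ, hσ⟩ := not_forall.1 hall
    have hz : ∀ d, σ (v d) ≠ 0 := fun d => (map_ne_zero σ).2 (h0 d)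
    obtain ⟨B, hB⟩ := (hD'.image fun x => |Real.log ‖σ x‖|).bddAbove
    have hd : ∀ n m, |Real.log ‖σ (v (n + m))‖ - Real.log ‖σ (v n)‖ - Real.log ‖σ (v m)‖| ≤ B := by
      intro n m
      have h1 : |Real.log ‖σ (v (n + m) * (v n)⁻¹ * (v m)⁻¹)‖| ≤ B := hB ⟨_, hq n m, rfl⟩
      have p1 := norm_ne_zero_iff.2 (hz (n + m))
      have p2 := norm_ne_zero_iff.2 (hz n)
      have p3 := norm_ne_zero_iff.2 (hz m)
      rw [map_mul, map_mul, map_inv₀, map_inv₀, norm_mul, norm_mul, norm_inv, norm_inv,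
        Real.log_mul (mul_ne_zero p1 (inv_ne_zero p2)) (inv_ne_zero p3),
        Real.log_mul p1 (inv_ne_zero p2), Real.log_inv, Real.log_inv] at h1
      rwa [sub_eq_add_neg, sub_eq_add_neg]
    obtain ⟨ι, hι, col, hc⟩ := col_esc hD (fun d => σ (v d)) hz
      ((hQ (fun d => Real.log ‖σ (v d)‖) B hd).resolve_left hσ)
    refine ⟨ι, hι, col, fun j P Q hP hQ' hPQ e => hc j P Q hP hQ' hPQ ?_⟩
    rw [← map_sum, ← map_sum, e]

end Unz

theorem xUnz : UnzS := by
  intro hQ hD F _ _ H u hfg hint hu hqh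
  obtain ⟨s, hs, hfin⟩ := (Subgroup.fg_iff H).1 hfg
  obtain ⟨K, hK⟩ : ∃ K : IntermediateField ℚ F,
      K = IntermediateField.adjoin ℚ ((fun a : Fˣ => (a : F)) '' s) := ⟨_, rfl⟩
  have hS : Finite ((fun a : Fˣ => (a : F)) '' s) := (hfin.image _).to_subtype
  have hfd : FiniteDimensional ℚ K := by
    rw [hK]
    refine IntermediateField.finiteDimensional_adjoin ?_
    rintro _ ⟨a, ha, rfl⟩
    exact (hint a (hs ▸ Subgroup.subset_closure ha)).tower_top
  have hnf : NumberField K := { to_charZero := inferInstance, to_finiteDimensional := hfd }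
  have hmem : ∀ a ∈ H, (a : F) ∈ K := by
    intro a ha
    rw [← hs] at ha
    induction ha using Subgroup.closure_induction with
    | mem x hx => rw [hK]; exact IntermediateField.subset_adjoin _ _ ⟨x, hx, rfl⟩
    | one => exact K.one_mem
    | mul x y _ _ hx hy => rw [Units.val_mul]; exact K.mul_mem hx hy
    | inv x _ hx => rw [Units.val_inv_eq_inv_val]; exact K.inv_mem hx
  obtain ⟨D, hDf, hDm⟩ := hqh
  have inj : Function.Injective (fun x : K => (x : F)) := Subtype.val_injective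
  have main := Unz.nf hQ hD K (fun d => ⟨(u d : F), hmem _ (hu d)⟩)
    (fun d h => (u d).ne_zero (congrArg Subtype.val h))
    (fun d => (isIntegral_algHom_iff (K.val.toRingHom.toIntAlgHom) inj).1 (hint _ (hu d)))
    ((fun x : K => (x : F)) ⁻¹' ((fun a : Fˣ => (a : F)) '' D))
    ((hDf.image _).preimage inj.injOn)
    (fun n m => ⟨_, hDm n m, by simp⟩)
  rcases main with h | ⟨ι, hι, col, hc⟩
  · left
    refine Set.Finite.of_finite_image (f := fun a : Fˣ => (a : F))
      ((h.image fun x : K => (x : F)).subset ?_) Units.val_injective.injOn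
    rintro _ ⟨_, ⟨d, rfl⟩, rfl⟩
    exact ⟨_, ⟨d, rfl⟩, rfl⟩
  · right
    refine ⟨ι, hι, col, fun j P Q hP hQ' hPQ e => hc j P Q hP hQ' hPQ (inj ?_)⟩
    simpa using e

end Pool.Agent.MP_154433_an.T5A
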