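import Pool.Agent.MP_154433_an.t5a.SpecA

/-! Rows `ValS` and `DomS`: a term of largest size excludes every signed relation. -/

set_option autoImplicit false
set_option linter.unusedVariables false

namespace Pool.Agent.MP_154433_an.T5A

namespace Val

theorem sep_of {A β : Type*} [AddCommGroup A] [LinearOrder β] (v : ℤ → A) (S : Set ℤ)
    (sz : ℤ → β)
    (h : ∀ d0 ∈ S, ∀ P Q : Finset ℤ, (P : Set ℤ) ⊆ S → (Q : Set ℤ) ⊆ S → Disjoint P Q →
      d0 ∉ P → d0 ∉ Q → (∀ d ∈ P ∪ Q, sz d ≤ sz d0) → v d0 ≠ ∑ d ∈ Q, v d - ∑ d ∈ P, v d)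
    (P Q : Finset ℤ) (hP : (P : Set ℤ) ⊆ S) (hQ : (Q : Set ℤ) ⊆ S) (hd : Disjoint P Q)
    (he : ∑ d ∈ P, v d = ∑ d ∈ Q, v d) : P = ∅ ∧ Q = ∅ := by
  have key : ∀ P Q : Finset ℤ, (P : Set ℤ) ⊆ S → (Q : Set ℤ) ⊆ S → Disjoint P Q →
      ∑ d ∈ P, v d = ∑ d ∈ Q, v d → ∀ d0 ∈ P, (∀ d ∈ P ∪ Q, sz d ≤ sz d0) → False := by
    intro P Q hP hQ hd he d0 h0 hm
    refine h d0 (hP h0) (P.erase d0) Q (fun x hx => hP (Finset.mem_of_mem_erase hx)) hQ
      (hd.mono_left (Finset.erase_subset _ _)) (Finset.notMem_erase _ _)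
      (Finset.disjoint_left.1 hd h0) (fun d hx => hm d ?_) ?_
    · rcases Finset.mem_union.1 hx with hx | hx
      · exact Finset.mem_union_left _ (Finset.mem_of_mem_erase hx)
      · exact Finset.mem_union_right _ hx
    · rw [← he, ← Finset.add_sum_erase P v h0]
      exact (add_sub_cancel_right _ _).symm
  rw [← Finset.union_eq_empty]
  by_contra hne
  obtain ⟨d0, h0, hm⟩ :=
    Finset.exists_max_image (P ∪ Q) sz (Finset.nonempty_iff_ne_empty.2 hne)
  rcases Finset.mem_union.1 h0 with h1 | h1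
  · exact key P Q hP hQ hd he d0 h1 hm
  · exact key Q P hQ hP hd.symm he.symm d0 h1 fun d hx => hm d (by rwa [Finset.union_comm])

theorem geo (f : ℤ → ℝ) (S : Set ℤ) (hf : ∀ d, 0 < f d)
    (h : ∀ d ∈ S, ∀ d' ∈ S, d ≠ d' → 3 * f d ≤ f d' ∨ 3 * f d' ≤ f d) (T : Finset ℤ) :
    (T : Set ℤ) ⊆ S → ∀ M : ℝ, 0 ≤ M → (∀ d ∈ T, f d ≤ M) → 2 * ∑ d ∈ T, f d ≤ 3 * M := by
  induction T using Finset.induction_on_max_value f with
  | empty =>
    intro _ M hM _
    rw [Finset.sum_empty]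
    linarith
  | insert a s ha hs ih =>
    intro hT M hM hb
    have hsS : (s : Set ℤ) ⊆ S := fun x hx => hT (Finset.mem_insert_of_mem hx)
    have haS : a ∈ S := hT (Finset.mem_insert_self a s)
    have h1 := ih hsS (f a / 3) (by have := hf a; positivity) fun d hd => by
      rcases h d (hsS hd) a haS (fun e => ha (e ▸ hd)) with h2 | h2
      · linarith
      · linarith [hs d hd, hf a]
    rw [Finset.sum_insert ha]
    linarith [hb a (Finset.mem_insert_self a s)]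

end Val

theorem xVal : ValS := by
  intro F _ O c S hinj
  refine Val.sep_of (fun d => (c d : F)) S (fun d => O.valuation (c d : F)) ?_
  intro d0 h0 P Q hP hQ hd hP0 hQ0 hm he
  have hne : O.valuation (c d0 : F) ≠ 0 := (Valuation.ne_zero_iff _).2 (c d0).ne_zero
  have hlt : ∀ T : Finset ℤ, (T : Set ℤ) ⊆ S → d0 ∉ T → T ⊆ P ∪ Q →
      O.valuation (∑ d ∈ T, (c d : F)) < O.valuation (c d0 : F) := by
    intro T hT hT0 hs
    refine Valuation.map_sum_lt _ hne fun d hx => lt_of_le_of_ne (hm d (hs hx)) fun e => ?_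
    exact hT0 (hinj d (hT hx) d0 h0 e ▸ hx)
  have h1 := lt_of_le_of_lt (O.valuation.map_sub _ _)
    (max_lt (hlt Q hQ hQ0 Finset.subset_union_right) (hlt P hP hP0 Finset.subset_union_left))
  rw [← he] at h1
  exact lt_irrefl _ h1

theorem xDom : DomS := by
  intro u S hu hr
  refine Val.sep_of u S (fun d => ‖u d‖) ?_
  intro d0 h0 P Q hP hQ hd hP0 hQ0 hm he
  have hpos : ∀ d, 0 < ‖u d‖ := fun d => norm_pos_iff.2 (hu d)
  have hS : ((P ∪ Q : Finset ℤ) : Set ℤ) ⊆ S := by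
    rw [Finset.coe_union]
    exact Set.union_subset hP hQ
  have h1 := Val.geo (fun d => ‖u d‖) S hpos hr (P ∪ Q) hS (‖u d0‖ / 3) (by positivity)
    fun d hx => by
      have hne : d ≠ d0 := fun e => by
        rcases Finset.mem_union.1 hx with hx | hx
        · exact hP0 (e ▸ hx)
        · exact hQ0 (e ▸ hx)
      rcases hr d (hS hx) d0 h0 hne with h2 | h2
      · linarith
      · linarith [hm d hx, hpos d0]
  rw [Finset.sum_union hd] at h1
  have h2 : ‖u d0‖ ≤ ∑ d ∈ Q, ‖u d‖ + ∑ d ∈ P, ‖u d‖ := by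
    rw [he]
    exact (norm_sub_le _ _).trans (add_le_add (norm_sum_le _ _) (norm_sum_le _ _))
  linarith [hpos d0]

end Pool.Agent.MP_154433_an.T5A
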