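import Pool.Agent.MP_154433_an.t3a.Lim
import Pool.Agent.MP_154433_an.t3a.Mk
import Pool.Agent.MP_154433_an.p4.Top
import Pool.Agent.MP_154433_an.p4.B1
import Pool.Agent.MP_154433_an.p4.B2
import Pool.Agent.MP_154433_an.p4.B3
import Pool.Agent.MP_154433_an.p4.B4
import Pool.Agent.MP_154433_an.t5a.Own
import Pool.Agent.MP_154433_an.t5a.Br
import Pool.Agent.MP_154433_an.t5a.Qm
import Pool.Agent.MP_154433_an.t5a.Val
import Pool.Agent.MP_154433_an.t5a.Dual
import Pool.Agent.MP_154433_an.t5a.Non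
import Pool.Agent.MP_154433_an.t5a.Unp
import Pool.Agent.MP_154433_an.t5a.Unz
import Pool.Agent.MP_154433_an.t5a.Mod
import Pool.Agent.MP_154433_an.t5a.Drift
import Pool.Agent.MP_154433_an.t5a.Mark
import Pool.Agent.MP_154433_an.t5a.Core
import Pool.Agent.MP_154433_an.t5a.Shad
import Pool.Agent.MP_154433_an.t5a.Pul2
import Pool.Agent.MP_154433_an.t5a.Rli2
import Pool.Agent.MP_154433_an.t5a.Tau2
import Pool.Agent.MP_154433_an.t5a.Psr2
import Pool.Agent.MP_154433_an.t5a.Shz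

/-! The algebraic step for dissociated families. -/

set_option autoImplicit false

namespace Pool.Agent.MP_154433_an.T4A.T5B

open T5A

theorem placeX : PlaceO := xPlace (xNon xQm xVal xDual) xUnp (xUnz xQm xDom)

theorem coreX : T5A.CoreO := T5A.xCore (xMod placeX) xDrift xMark

theorem rowsX : Rows :=
  ⟨xKex, xKa, xKb, xKc, xKd, T3A.xLim, xW1, xW2, xPhb, xKw, xWk, xWa, xCe, xCi, xTri, xCis, xCfl,
    xCit, xCpo, xCpr, xPk, xLam, xLae, xPha, xPhc, xF2, xF3, xF4b, xIid, xXi, xPull, xPush, xInt, xPrj,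
    xG5, xG3, xG4, xRli, xT1, xT2, xSel, xSub, xTau, T3A.xMk, xTh, xPsi, xPsr, xSd, xCt,
    xFin (T4A.xCore (xSp (xZl xPig) xQh))⟩

theorem algX : AlgO :=
  algO_of rowsX (xPul2 xNc xShad) xRli2 (xTau2 xNc xT1 xT2 xSel xSub) xPsr2 (xFin2 coreX)

/-- the integers as an acting group -/
@[reducible] def grpZ : T4x.Grp := { Γ := ℤ, 𝒰 := Set.univ }

theorem mixG [T4x.Grp] (ν : T3x.Wt) (U : Ultrafilter ℕ) (hU : (U : Filter ℕ) ≤ Filter.atTop)
    (he : T3x.ERG ν) : Mix T4x.Γ (T3A.wm ν) U :=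
  mix_of T4x.basX.t ν U hU (T4x.fdX.mix ν he)

theorem algS2 : T5x.AlgS2 := bridge algX xExa (@mixG grpZ) xShz xDek

end Pool.Agent.MP_154433_an.T4A.T5B
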